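import Pool.Agent.H66.BP.Targets

/-! # MP_d8fe2e_gt, module EN: the energy identity -/

open MeasureTheory Set Filter Topology Metric
open scoped Real ENNReal NNReal ComplexConjugate ContDiff FourierTransform SchwartzMap

namespace Pool.Agent.H36.BP

open Pool.Agent.H66.BP

/-- the transform of a test function and its inversion -/
lemma test_transform (φ : ℝ → ℝ) (hφ : ContDiff ℝ ∞ φ) (hc : HasCompactSupport φ) :
    ∃ Φ : ℝ → ℂ, Continuous Φ ∧ Integrable Φ ∧
      (∀ y, Φ y = ∫ w, (φ w : ℂ) * Complex.exp (Complex.I * ((w * y : ℝ) : ℂ))) ∧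
      ∀ s : ℝ, ∫ y, Φ y * Complex.exp (-(Complex.I * ((y * s : ℝ) : ℂ))) = 2 * π * φ s := by
  have h1 : ContDiff ℝ ∞ (fun w => (φ w : ℂ)) := Complex.ofRealCLM.contDiff.comp hφ
  have h2 : HasCompactSupport (fun w => (φ w : ℂ)) := hc.comp_left (g := fun x : ℝ => (x : ℂ))
    Complex.ofReal_zero
  set ψ : 𝓢(ℝ, ℂ) := h2.toSchwartzMap h1 with hψ
  have hψe : ∀ x, ψ x = (φ x : ℂ) := fun x => rfl
  set F : 𝓢(ℝ, ℂ) := 𝓕⁻ ψ with hF
  have hFe : ∀ ξ, F ξ = ∫ v : ℝ, Complex.exp (((2 * π * (v * ξ) : ℝ) : ℂ) * Complex.I) * (φ v : ℂ) := by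
    intro ξ
    have : F ξ = (𝓕⁻ (ψ : ℝ → ℂ)) ξ := by
      rw [hF, SchwartzMap.fourierInv_coe]
    rw [this, Real.fourierInv_eq']
    apply integral_congr_ae
    filter_upwards with v
    rw [smul_eq_mul, hψe]
    congr 4
    simp [mul_comm]
  have h2π : (2 * π : ℝ) ≠ 0 := by positivity
  refine ⟨fun y => F (y / (2 * π)), F.continuous.comp (continuous_id.div_const _), ?_, ?_, ?_⟩
  · exact F.integrable.comp_div h2π
  · intro y
    show F (y / (2 * π)) = _
    rw [hFe]
    apply integral_congr_ae
    filter_upwards with v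
    rw [mul_comm]
    congr 2
    rw [mul_comm Complex.I]
    congr 2
    field_simp
  · intro s
    have h3 : ∀ y : ℝ, F (y / (2 * π)) * Complex.exp (-(Complex.I * ((y * s : ℝ) : ℂ))) =
        (fun ξ : ℝ => F ξ * Complex.exp (-(Complex.I * ((2 * π * ξ * s : ℝ) : ℂ)))) (y / (2 * π)) := by
      intro y
      simp only
      congr 4
      push_cast
      field_simp
    rw [integral_congr_ae (Eventually.of_forall h3), Measure.integral_comp_div
      (fun ξ : ℝ => F ξ * Complex.exp (-(Complex.I * ((2 * π * ξ * s : ℝ) : ℂ)))) (2 * π),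
      abs_of_pos (by positivity)]
    have h4 : ∫ ξ : ℝ, F ξ * Complex.exp (-(Complex.I * ((2 * π * ξ * s : ℝ) : ℂ))) = φ s := by
      have h5 : (𝓕 (F : ℝ → ℂ)) s = (φ s : ℂ) := by
        rw [← SchwartzMap.fourier_coe, hF, FourierInvPair.fourier_fourierInv_eq]
        exact hψe s
      rw [← h5, Real.fourier_real_eq_integral_exp_smul]
      apply integral_congr_ae
      filter_upwards with v
      rw [smul_eq_mul, mul_comm]
      congr 2
      push_cast
      ring
    rw [h4, Complex.real_smul]
    push_cast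
    ring

theorem en : T_EN := by
  intro I T s n N hI hIb hT hs hn hN hae φ hφ hc
  obtain ⟨Φ, hΦc, hΦi, hΦe, hΦs⟩ := test_transform φ hφ hc
  set ν : Measure ℝ := volume.restrict I with hν
  have hfin : IsFiniteMeasure ν := ⟨by
    rw [hν, Measure.restrict_apply_univ]
    exact hIb.measure_lt_top⟩
  have hφc : Continuous φ := hφ.continuous
  have hφi : Integrable (fun w => (φ w : ℂ)) := by
    have : Integrable φ := hφc.integrable_of_hasCompactSupport hc
    exact this.ofReal
  have hNae : ∀ᵐ x ∂ν, |n x| ≤ N := by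
    rw [hν]
    exact (ae_restrict_mem hI).mono fun x hx => hN x hx
  -- the integrand
  set G : ℝ → ℝ × ℝ → ℂ := fun τ p => Φ p.2 * (n p.1 : ℂ) *
    (I.indicator (fun x => (n x : ℂ)) (p.1 - p.2 / τ)) *
    Complex.exp (Complex.I * ((τ * (T p.1 - T (p.1 - p.2 / τ)) : ℝ) : ℂ)) with hG
  have hGm : ∀ τ, Measurable (G τ) := by
    intro τ
    have hnc : Measurable (fun x => (n x : ℂ)) := Complex.measurable_ofReal.comp hn
    have h1 : Measurable (fun p : ℝ × ℝ => p.1 - p.2 / τ) := by fun_prop
    have h2 : Measurable (I.indicator (fun x => (n x : ℂ))) := hnc.indicator hI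
    refine (((hΦc.measurable.comp measurable_snd).mul (hnc.comp measurable_fst)).mul
      (h2.comp h1)).mul ?_
    apply Complex.measurable_exp.comp
    apply Measurable.const_mul
    apply Complex.measurable_ofReal.comp
    apply Measurable.const_mul
    exact (hT.comp measurable_fst).sub (hT.comp h1)
  have hbound : Integrable (fun p : ℝ × ℝ => N ^ 2 * ‖Φ p.2‖) (ν.prod volume) := by
    have h1 : Integrable (fun _ : ℝ => N ^ 2) ν := integrable_const _
    exact h1.mul_prod hΦi.norm
  have hN0 : ∀ x ∈ I, 0 ≤ N := fun x hx => (abs_nonneg _).trans (hN x hx)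
  have hGb : ∀ τ, ∀ᵐ p ∂(ν.prod volume), ‖G τ p‖ ≤ N ^ 2 * ‖Φ p.2‖ := by
    intro τ
    have h1 : ∀ᵐ p ∂(ν.prod (volume : Measure ℝ)), p.1 ∈ I := by
      apply Measure.quasiMeasurePreserving_fst.ae
      rw [hν]
      exact ae_restrict_mem hI
    filter_upwards [h1] with p hp
    have hN' := hN0 _ hp
    have h2 : ‖I.indicator (fun x => (n x : ℂ)) (p.1 - p.2 / τ)‖ ≤ N := by
      by_cases h : p.1 - p.2 / τ ∈ I
      · rw [indicator_of_mem h, Complex.norm_real]
        exact hN _ h
      · rw [indicator_of_notMem h, norm_zero]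
        exact hN'
    have h3 : ‖(n p.1 : ℂ)‖ ≤ N := by
      rw [Complex.norm_real]
      exact hN _ hp
    simp only [hG]
    rw [norm_mul, norm_mul, norm_mul]
    have h4 : ‖Complex.exp (Complex.I * ((τ * (T p.1 - T (p.1 - p.2 / τ)) : ℝ) : ℂ))‖ = 1 := by
      rw [mul_comm, Complex.norm_exp_ofReal_mul_I]
    rw [h4, mul_one]
    calc ‖Φ p.2‖ * ‖(n p.1 : ℂ)‖ * ‖I.indicator (fun x => (n x : ℂ)) (p.1 - p.2 / τ)‖
        ≤ ‖Φ p.2‖ * N * N := by gcongr
      _ = N ^ 2 * ‖Φ p.2‖ := by ring
  have hGi : ∀ τ, Integrable (G τ) (ν.prod volume) := fun τ =>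
    hbound.mono' (hGm τ).aestronglyMeasurable (hGb τ)
  -- the identity
  have key : ∀ τ : ℝ, 0 < τ → ((τ * ∫ w, φ w *
      ‖∫ x in I, Complex.exp (Complex.I * τ * ((T x + w * x : ℝ) : ℂ)) * (n x : ℂ)‖ ^ 2 : ℝ) : ℂ) =
      ∫ p, G τ p ∂(ν.prod volume) := by
    intro τ hτ
    set a : ℝ → ℝ → ℂ := fun w x => Complex.exp (Complex.I * τ * ((T x + w * x : ℝ) : ℂ)) * (n x : ℂ)
      with ha
    set K : ℝ → ℝ × ℝ → ℂ := fun w p => (n p.1 : ℂ) * (n p.2 : ℂ) *
      Complex.exp (Complex.I * ((τ * (T p.1 - T p.2) : ℝ) : ℂ)) *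
      Complex.exp (Complex.I * ((w * (τ * (p.1 - p.2)) : ℝ) : ℂ)) with hK
    have hKa : ∀ w p, a w p.1 * conj (a w p.2) = K w p := by
      intro w p
      simp only [ha, hK]
      rw [map_mul, ← Complex.exp_conj, map_mul, map_mul, Complex.conj_I, Complex.conj_ofReal,
        Complex.conj_ofReal, Complex.conj_ofReal]
      have e1 : Complex.exp (Complex.I * τ * ((T p.1 + w * p.1 : ℝ) : ℂ)) *
          Complex.exp (-Complex.I * τ * ((T p.2 + w * p.2 : ℝ) : ℂ)) =
          Complex.exp (Complex.I * ((τ * (T p.1 - T p.2) : ℝ) : ℂ)) *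
          Complex.exp (Complex.I * ((w * (τ * (p.1 - p.2)) : ℝ) : ℂ)) := by
        rw [← Complex.exp_add, ← Complex.exp_add]
        congr 1
        push_cast
        ring
      calc Complex.exp (Complex.I * τ * ((T p.1 + w * p.1 : ℝ) : ℂ)) * (n p.1 : ℂ) *
          (Complex.exp (-Complex.I * τ * ((T p.2 + w * p.2 : ℝ) : ℂ)) * (n p.2 : ℂ))
          = (n p.1 : ℂ) * (n p.2 : ℂ) * (Complex.exp (Complex.I * τ * ((T p.1 + w * p.1 : ℝ) : ℂ)) *
          Complex.exp (-Complex.I * τ * ((T p.2 + w * p.2 : ℝ) : ℂ))) := by ring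
        _ = _ := by rw [e1]; ring
    have hsq : ∀ w, ((‖∫ x in I, a w x‖ ^ 2 : ℝ) : ℂ) = ∫ p, K w p ∂(ν.prod ν) := by
      intro w
      simp_rw [← hKa w]
      rw [integral_prod_mul (fun x => a w x) (fun x => conj (a w x)), integral_conj, ← hν]
      rw [Complex.mul_conj, Complex.normSq_eq_norm_sq]
    have hKm : Measurable (fun q : ℝ × (ℝ × ℝ) => K q.1 q.2) := by
      have hnc : Measurable (fun x => (n x : ℂ)) := Complex.measurable_ofReal.comp hn
      refine (((hnc.comp (measurable_fst.comp measurable_snd)).mul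
        (hnc.comp (measurable_snd.comp measurable_snd))).mul ?_).mul ?_
      · apply Complex.measurable_exp.comp
        apply Measurable.const_mul
        apply Complex.measurable_ofReal.comp
        apply Measurable.const_mul
        exact (hT.comp (measurable_fst.comp measurable_snd)).sub
          (hT.comp (measurable_snd.comp measurable_snd))
      · apply Complex.measurable_exp.comp
        apply Measurable.const_mul
        apply Complex.measurable_ofReal.comp
        fun_prop
    have hKb : ∀ᵐ p ∂(ν.prod ν), ∀ w, ‖K w p‖ ≤ N ^ 2 := by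
      have h1 : ∀ᵐ p ∂(ν.prod ν), p.1 ∈ I := by
        apply Measure.quasiMeasurePreserving_fst.ae
        rw [hν]
        exact ae_restrict_mem hI
      have h2 : ∀ᵐ p ∂(ν.prod ν), p.2 ∈ I := by
        apply Measure.quasiMeasurePreserving_snd.ae
        rw [hν]
        exact ae_restrict_mem hI
      filter_upwards [h1, h2] with p h1 h2 w
      simp only [hK]
      rw [norm_mul, norm_mul, norm_mul, Complex.norm_real, Complex.norm_real,
        mul_comm Complex.I, Complex.norm_exp_ofReal_mul_I, mul_comm Complex.I,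
        Complex.norm_exp_ofReal_mul_I, mul_one, mul_one, sq]
      exact mul_le_mul (hN _ h1) (hN _ h2) (norm_nonneg _) (hN0 _ h1)
    have hint : Integrable (fun q : ℝ × (ℝ × ℝ) => (φ q.1 : ℂ) * K q.1 q.2)
        (volume.prod (ν.prod ν)) := by
      have h1 : Integrable (fun q : ℝ × (ℝ × ℝ) => ‖(φ q.1 : ℂ)‖ * N ^ 2)
          (volume.prod (ν.prod ν)) :=
        hφi.norm.mul_prod (integrable_const (N ^ 2))
      refine h1.mono' ?_ ?_
      · exact ((Complex.measurable_ofReal.comp (hφc.measurable.comp measurable_fst)).mul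
          hKm).aestronglyMeasurable
      · have h2 : ∀ᵐ q ∂((volume : Measure ℝ).prod (ν.prod ν)), ∀ w, ‖K w q.2‖ ≤ N ^ 2 :=
          Measure.quasiMeasurePreserving_snd.ae hKb
        filter_upwards [h2] with q hq
        rw [norm_mul]
        exact mul_le_mul_of_nonneg_left (hq _) (norm_nonneg _)
    have hstep1 : ((∫ w, φ w * ‖∫ x in I, a w x‖ ^ 2 : ℝ) : ℂ) =
        ∫ p, (n p.1 : ℂ) * (n p.2 : ℂ) *
          Complex.exp (Complex.I * ((τ * (T p.1 - T p.2) : ℝ) : ℂ)) * Φ (τ * (p.1 - p.2))
          ∂(ν.prod ν) := by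
      rw [← integral_complex_ofReal]
      have h1 : ∀ w, ((φ w * ‖∫ x in I, a w x‖ ^ 2 : ℝ) : ℂ) =
          ∫ p, (φ w : ℂ) * K w p ∂(ν.prod ν) := by
        intro w
        rw [integral_const_mul, ← hsq w]
        push_cast
        ring
      simp_rw [h1]
      rw [integral_integral_swap hint]
      apply integral_congr_ae
      filter_upwards with p
      rw [hΦe, ← integral_const_mul]
      apply integral_congr_ae
      filter_upwards with w
      simp only [hK]
      ring
    have hΦb : ∃ B, ∀ y, ‖Φ y‖ ≤ B := by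
      refine ⟨∫ w, ‖(φ w : ℂ)‖, fun y => ?_⟩
      rw [hΦe]
      refine (norm_integral_le_integral_norm _).trans (le_of_eq ?_)
      apply integral_congr_ae
      filter_upwards with w
      rw [norm_mul, mul_comm Complex.I, Complex.norm_exp_ofReal_mul_I, mul_one]
    obtain ⟨B, hB⟩ := hΦb
    have hB0 : 0 ≤ B := (norm_nonneg _).trans (hB 0)
    have hint2 : Integrable (fun p : ℝ × ℝ => (n p.1 : ℂ) * (n p.2 : ℂ) *
          Complex.exp (Complex.I * ((τ * (T p.1 - T p.2) : ℝ) : ℂ)) * Φ (τ * (p.1 - p.2)))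
          (ν.prod ν) := by
      refine (integrable_const (N ^ 2 * B)).mono' ?_ ?_
      · apply Measurable.aestronglyMeasurable
        have hnc : Measurable (fun x => (n x : ℂ)) := Complex.measurable_ofReal.comp hn
        refine (((hnc.comp measurable_fst).mul (hnc.comp measurable_snd)).mul ?_).mul ?_
        · apply Complex.measurable_exp.comp
          apply Measurable.const_mul
          apply Complex.measurable_ofReal.comp
          apply Measurable.const_mul
          exact (hT.comp measurable_fst).sub (hT.comp measurable_snd)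
        · exact hΦc.measurable.comp (by fun_prop)
      · have h1 : ∀ᵐ p ∂(ν.prod ν), p.1 ∈ I := by
          apply Measure.quasiMeasurePreserving_fst.ae
          rw [hν]
          exact ae_restrict_mem hI
        have h2 : ∀ᵐ p ∂(ν.prod ν), p.2 ∈ I := by
          apply Measure.quasiMeasurePreserving_snd.ae
          rw [hν]
          exact ae_restrict_mem hI
        filter_upwards [h1, h2] with p h1 h2
        rw [norm_mul, norm_mul, norm_mul, Complex.norm_real, Complex.norm_real,
          mul_comm Complex.I, Complex.norm_exp_ofReal_mul_I, mul_one, sq]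
        exact mul_le_mul (mul_le_mul (hN _ h1) (hN _ h2) (norm_nonneg _) (hN0 _ h1)) (hB _)
          (norm_nonneg _) (mul_nonneg (hN0 _ h1) (hN0 _ h1))
    rw [Complex.ofReal_mul, hstep1, integral_prod _ hint2, integral_prod _ (hGi τ),
      ← integral_const_mul]
    apply integral_congr_ae
    filter_upwards with x
    -- the substitution
    set h : ℝ → ℂ := fun x' => I.indicator (fun x' => (n x : ℂ) * (n x' : ℂ) *
          Complex.exp (Complex.I * ((τ * (T x - T x') : ℝ) : ℂ)) * Φ (τ * (x - x'))) x' with hh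
    have e1 : ∫ x', (n x : ℂ) * (n x' : ℂ) *
          Complex.exp (Complex.I * ((τ * (T x - T x') : ℝ) : ℂ)) * Φ (τ * (x - x')) ∂ν =
        ∫ x', h x' := by
      rw [hν, ← integral_indicator hI]
    have e2 : ∫ x', h x' = ∫ u, h (x - u) := (integral_sub_left_eq_self h volume x).symm
    have e3 : ∫ y, h (x - y / τ) = τ • ∫ u, h (x - u) := by
      have := Measure.integral_comp_div (fun u => h (x - u)) τ
      rw [abs_of_pos hτ] at this
      exact this
    have e4 : ∀ y, h (x - y / τ) = G τ (x, y) := by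
      intro y
      simp only [hh, hG]
      by_cases hy : x - y / τ ∈ I
      · rw [indicator_of_mem hy, indicator_of_mem hy]
        have : τ * (x - (x - y / τ)) = y := by
          field_simp
          ring
        rw [this]
        ring
      · rw [indicator_of_notMem hy, indicator_of_notMem hy]
        ring
    rw [e1, e2, ← smul_eq_mul, Complex.coe_smul, ← e3]
    exact integral_congr_ae (Eventually.of_forall e4)
  -- dominated convergence
  set G₀ : ℝ × ℝ → ℂ := fun p => Φ p.2 * (n p.1 : ℂ) * (n p.1 : ℂ) *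
    Complex.exp (-(Complex.I * ((p.2 * s p.1 : ℝ) : ℂ))) with hG₀
  have hlim : Tendsto (fun τ => ∫ p, G τ p ∂(ν.prod volume)) atTop
      (𝓝 (∫ p, G₀ p ∂(ν.prod volume))) := by
    apply tendsto_integral_filter_of_dominated_convergence (fun p => N ^ 2 * ‖Φ p.2‖)
    · exact Eventually.of_forall fun τ => (hGm τ).aestronglyMeasurable
    · exact Eventually.of_forall hGb
    · exact hbound
    · have h1 : ∀ᵐ p ∂(ν.prod (volume : Measure ℝ)),
          I ∈ 𝓝 p.1 ∧ HasDerivAt T (- s p.1) p.1 ∧ ContinuousAt n p.1 :=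
        Measure.quasiMeasurePreserving_fst.ae hae
      filter_upwards [h1] with p hp
      obtain ⟨hp1, hp2, hp3⟩ := hp
      have hinv : Tendsto (fun τ : ℝ => τ⁻¹) atTop (𝓝 0) := tendsto_inv_atTop_zero
      have hx : Tendsto (fun τ : ℝ => p.1 - p.2 / τ) atTop (𝓝 p.1) := by
        have : Tendsto (fun τ : ℝ => p.1 - p.2 * τ⁻¹) atTop (𝓝 (p.1 - p.2 * 0)) :=
          (hinv.const_mul _).const_sub _
        simpa [div_eq_mul_inv] using this
      have hn' : Tendsto (fun τ : ℝ => I.indicator (fun x => (n x : ℂ)) (p.1 - p.2 / τ)) atTop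
          (𝓝 (n p.1 : ℂ)) := by
        have h2 : Tendsto (fun τ : ℝ => (n (p.1 - p.2 / τ) : ℂ)) atTop (𝓝 (n p.1 : ℂ)) :=
          (Complex.continuous_ofReal.tendsto _).comp (hp3.tendsto.comp hx)
        refine h2.congr' ?_
        filter_upwards [hx hp1] with τ hτ
        rw [indicator_of_mem (show p.1 - p.2 / τ ∈ I from hτ)]
      have hd : Tendsto (fun τ : ℝ => τ * (T p.1 - T (p.1 - p.2 / τ))) atTop
          (𝓝 (-(p.2 * s p.1))) := by
        have h2 : HasDerivAt (fun ε : ℝ => T (p.1 - p.2 * ε)) (s p.1 * p.2) 0 := by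
          have h3 : HasDerivAt (fun ε : ℝ => p.1 - p.2 * ε) (-p.2) 0 := by
            have := ((hasDerivAt_id (0 : ℝ)).const_mul p.2).const_sub p.1
            simpa using this
          have h4 : HasDerivAt T (- s p.1) (p.1 - p.2 * 0) := by simpa using hp2
          have h9 := h4.comp (0 : ℝ) h3
          have h10 : -s p.1 * -p.2 = s p.1 * p.2 := by ring
          rw [h10] at h9
          exact h9
        have h5 := h2.tendsto_slope_zero
        have h6 : Tendsto (fun τ : ℝ => τ⁻¹) atTop (𝓝[≠] 0) := by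
          apply tendsto_nhdsWithin_of_tendsto_nhds_of_eventually_within _ hinv
          filter_upwards [eventually_gt_atTop (0 : ℝ)] with τ hτ
          exact (inv_pos.mpr hτ).ne'
        have h7 := (h5.comp h6).neg
        have h8 : -(s p.1 * p.2) = -(p.2 * s p.1) := by ring
        rw [h8] at h7
        refine h7.congr fun τ => ?_
        simp only [Function.comp_apply, inv_inv, zero_add, mul_zero, sub_zero, smul_eq_mul,
          div_eq_mul_inv]
        ring
      have hexp : Tendsto (fun τ : ℝ =>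
          Complex.exp (Complex.I * ((τ * (T p.1 - T (p.1 - p.2 / τ)) : ℝ) : ℂ))) atTop
          (𝓝 (Complex.exp (Complex.I * ((-(p.2 * s p.1) : ℝ) : ℂ)))) := by
        apply (Complex.continuous_exp.tendsto _).comp
        apply Tendsto.const_mul
        exact (Complex.continuous_ofReal.tendsto _).comp hd
      have hfin2 := (hn'.const_mul (Φ p.2 * (n p.1 : ℂ))).mul hexp
      have e : Complex.exp (Complex.I * ((-(p.2 * s p.1) : ℝ) : ℂ)) =
          Complex.exp (-(Complex.I * ((p.2 * s p.1 : ℝ) : ℂ))) := by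
        congr 1
        push_cast
        ring
      rw [e] at hfin2
      exact hfin2
  have hG₀i : Integrable G₀ (ν.prod volume) := by
    refine hbound.mono' ?_ ?_
    · apply Measurable.aestronglyMeasurable
      have hnc : Measurable (fun x => (n x : ℂ)) := Complex.measurable_ofReal.comp hn
      refine (((hΦc.measurable.comp measurable_snd).mul (hnc.comp measurable_fst)).mul
        (hnc.comp measurable_fst)).mul ?_
      apply Complex.measurable_exp.comp
      apply Measurable.neg
      apply Measurable.const_mul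
      apply Complex.measurable_ofReal.comp
      exact measurable_snd.mul (hs.comp measurable_fst)
    · have h1 : ∀ᵐ p ∂(ν.prod (volume : Measure ℝ)), p.1 ∈ I := by
        apply Measure.quasiMeasurePreserving_fst.ae
        rw [hν]
        exact ae_restrict_mem hI
      filter_upwards [h1] with p hp
      have h3 : ‖(n p.1 : ℂ)‖ ≤ N := by
        rw [Complex.norm_real]
        exact hN _ hp
      simp only [hG₀]
      rw [norm_mul, norm_mul, norm_mul]
      have h4 : ‖Complex.exp (-(Complex.I * ((p.2 * s p.1 : ℝ) : ℂ)))‖ = 1 := by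
        have : -(Complex.I * ((p.2 * s p.1 : ℝ) : ℂ)) = ((-(p.2 * s p.1) : ℝ) : ℂ) * Complex.I := by
          push_cast
          ring
        rw [this, Complex.norm_exp_ofReal_mul_I]
      rw [h4, mul_one]
      calc ‖Φ p.2‖ * ‖(n p.1 : ℂ)‖ * ‖(n p.1 : ℂ)‖
          ≤ ‖Φ p.2‖ * N * N := by
            have := hN0 _ hp
            gcongr
        _ = N ^ 2 * ‖Φ p.2‖ := by ring
  have hG₀e : ∫ p, G₀ p ∂(ν.prod volume) =
      ((2 * π * ∫ x in I, φ (s x) * (n x) ^ 2 : ℝ) : ℂ) := by
    rw [integral_prod _ hG₀i]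
    have h1 : ∀ x, ∫ y, G₀ (x, y) = ((2 * π * (φ (s x) * (n x) ^ 2) : ℝ) : ℂ) := by
      intro x
      have h2 : ∀ y, G₀ (x, y) = ((n x : ℂ) * (n x : ℂ)) *
          (Φ y * Complex.exp (-(Complex.I * ((y * s x : ℝ) : ℂ)))) := by
        intro y
        simp only [hG₀]
        ring
      simp_rw [h2]
      rw [integral_const_mul, hΦs]
      push_cast
      ring
    simp_rw [h1]
    rw [integral_complex_ofReal, integral_const_mul]
  rw [hG₀e] at hlim
  have hlim2 := (Complex.continuous_re.tendsto _).comp hlim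
  rw [Complex.ofReal_re] at hlim2
  refine hlim2.congr' ?_
  filter_upwards [eventually_gt_atTop (0 : ℝ)] with τ hτ
  simp only [Function.comp_apply]
  rw [← key τ hτ, Complex.ofReal_re]

end Pool.Agent.H36.BP
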