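import Pool.Agent.H66.BP.Targets

/-! # MP_d8fe2e_gt, module EQ: upper equicontinuity of the Jensen sums -/

open MeasureTheory Set Filter Topology Metric
open scoped Real ENNReal NNReal ComplexConjugate ContDiff

namespace Pool.Agent.H36.BP

open Pool.Agent.H66.BP

lemma poisson_cont {d : ℂ} {r : ℝ} (_hr : 0 < r) (hd : d ∈ ball (0 : ℂ) r) :
    ContinuousOn (poissonKernel 0 d) (sphere (0 : ℂ) |r|) := by
  rw [poissonKernel_eq_re_herglotzRieszKernel]
  exact Complex.continuous_re.comp_continuousOn (continuousOn_herglotzRieszKernel_sphere hd)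

lemma poisson_le {d z : ℂ} {r : ℝ} (hz : z ∈ sphere (0 : ℂ) r) (hd : d ∈ ball (0 : ℂ) r) :
    poissonKernel 0 d z ≤ (r + ‖d‖) / (r - ‖d‖) := by
  have h := re_herglotzRieszKernel_le hz hd
  rw [poissonKernel_eq_re_herglotzRieszKernel, Function.comp_apply, herglotzRieszKernel_def]
  simpa using h

lemma subm_int {u : ℂ → ℝ} (hu : Continuous u) (r : ℝ) : CircleIntegrable u 0 r :=
  hu.continuousOn.circleIntegrable'

/-- centre of the disc -/
lemma smp_center (hS : T_SMP) {u : ℂ → ℝ} (hu : SubM u) {r : ℝ} (hr : 0 < r) :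
    u 0 ≤ Real.circleAverage u 0 r := by
  refine (hS u hu 0 0 r hr (by simpa using hr)).trans (le_of_eq ?_)
  apply Real.circleAverage_congr_sphere
  intro z hz
  have hz' : ‖z‖ = |r| := by simpa using hz
  have hz0 : ‖z‖ ≠ 0 := by rw [hz', abs_of_pos hr]; exact hr.ne'
  simp only [poissonKernel_def, sub_zero, norm_zero]
  field_simp
  ring

lemma eq_aux (hS : T_SMP) (P Q : ℂ × ℂ → ℝ → ℝ) (m : ℂ × ℂ → ℝ) (M C : ℝ) (hM : 0 ≤ M)
    (hC : 0 ≤ C) (P0 : ∀ z t, 0 ≤ P z t)
    (Psub : ∀ z d t, 0 < t → SubM (fun s => P (z + s • d) t))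
    (Qsub : ∀ z d t, 0 < t → SubM (fun s => Q (z + s • d) t))
    (upper : ∀ z t, 0 < t → P z t + Q z t ≤ t * m z)
    (madd : ∀ z z', m (z + z') ≤ m z + m z') (mbd : ∀ z, m z ≤ M * ‖z‖)
    (z₀ z : ℂ × ℂ) (r t : ℝ) (ht : 0 < t) (hz : ‖z - z₀‖ < r)
    (hlow : t * m z₀ - C * Real.log (2 + t * ‖z₀‖) ≤ P z₀ t + Q z₀ t) :
    P z t ≤ (r + ‖z - z₀‖) / (r - ‖z - z₀‖) *
      (r * M * t + C * Real.log (2 + t * ‖z₀‖) + P z₀ t) := by
  have hr : 0 < r := lt_of_le_of_lt (norm_nonneg _) hz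
  have hlog : 0 ≤ Real.log (2 + t * ‖z₀‖) := by
    apply Real.log_nonneg
    have : 0 ≤ t * ‖z₀‖ := by positivity
    linarith
  have h0 : 0 ≤ r * M * t + C * Real.log (2 + t * ‖z₀‖) := by positivity
  rcases eq_or_ne z z₀ with rfl | hne
  · rw [sub_self, norm_zero, add_zero, sub_zero, div_self hr.ne', one_mul]
    linarith
  set d := ‖z - z₀‖ with hd
  have hd0 : 0 < d := norm_pos_iff.mpr (sub_ne_zero.mpr hne)
  set e : ℂ × ℂ := ((d : ℂ)⁻¹) • (z - z₀) with he
  have hen : ‖e‖ = 1 := by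
    rw [he, norm_smul, norm_inv, Complex.norm_real, Real.norm_of_nonneg hd0.le, ← hd]
    exact inv_mul_cancel₀ hd0.ne'
  have hze : z₀ + (d : ℂ) • e = z := by
    rw [he, smul_smul, mul_inv_cancel₀ (by exact_mod_cast hd0.ne'), one_smul]
    abel
  have hu := Psub z₀ e t ht
  have hv := Qsub z₀ e t ht
  have hdb : (d : ℂ) ∈ ball (0 : ℂ) r := by
    simp only [mem_ball, dist_zero_right, Complex.norm_real, Real.norm_of_nonneg hd0.le]
    exact hz
  have hdn : ‖(d : ℂ)‖ = d := by rw [Complex.norm_real, Real.norm_of_nonneg hd0.le]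
  have hK : 0 ≤ (r + d) / (r - d) := div_nonneg (by linarith) (by linarith)
  have h1 : P z t ≤ (r + d) / (r - d) * Real.circleAverage (fun s : ℂ => P (z₀ + s • e) t) 0 r := by
    have h2 := hS _ hu 0 (d : ℂ) r hr hdb
    simp only [hze] at h2
    refine h2.trans ?_
    rw [← smul_eq_mul, ← Real.circleAverage_fun_smul]
    apply Real.circleAverage_mono
    · apply ContinuousOn.circleIntegrable'
      exact (poisson_cont hr hdb).mul hu.1.continuousOn
    · apply ContinuousOn.circleIntegrable'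
      exact (hu.1.const_smul ((r + d) / (r - d))).continuousOn
    · intro s hs
      rw [abs_of_pos hr] at hs
      have h3 := poisson_le hs hdb
      rw [hdn] at h3
      rw [smul_eq_mul]
      exact mul_le_mul_of_nonneg_right h3 (P0 _ _)
  have h4 : Q z₀ t ≤ Real.circleAverage (fun s : ℂ => Q (z₀ + s • e) t) 0 r := by
    have := smp_center hS hv hr
    simpa using this
  have h5 : Real.circleAverage (fun s : ℂ => P (z₀ + s • e) t) 0 r +
      Real.circleAverage (fun s : ℂ => Q (z₀ + s • e) t) 0 r ≤ t * (m z₀ + M * r) := by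
    rw [← Real.circleAverage_fun_add (subm_int hu.1 r) (subm_int hv.1 r)]
    apply Real.circleAverage_mono_on_of_le_circle
    · exact subm_int (hu.1.add hv.1) r
    · intro s hs
      have hs' : ‖s‖ = r := by
        have : ‖s‖ = |r| := by simpa using hs
        rw [this, abs_of_pos hr]
      refine (upper _ t ht).trans (mul_le_mul_of_nonneg_left ?_ ht.le)
      refine (madd _ _).trans (add_le_add le_rfl ?_)
      refine (mbd _).trans (le_of_eq ?_)
      rw [norm_smul, hen, hs', mul_one]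
  refine h1.trans (mul_le_mul_of_nonneg_left ?_ hK)
  linarith

theorem eq (hS : T_SMP) : T_EQ := by
  intro D x l z r t ht hz
  have hm0 : D.m 0 = 0 := by
    have := D.mhom 0 0
    simpa using this
  have hlow : t * D.m (l • cx x) - D.C * Real.log (2 + t * ‖l • cx x‖) ≤
      D.JP (l • cx x) t + D.JQ (l • cx x) t := by
    rcases eq_or_ne l 0 with rfl | hl
    · rw [zero_smul, hm0, norm_zero]
      have h1 := D.P0 0 t
      have h2 := D.Q0 0 t
      have h3 : 0 ≤ D.C * Real.log (2 + t * 0) := by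
        apply mul_nonneg D.hC
        rw [mul_zero, add_zero]
        exact Real.log_nonneg (by norm_num)
      linarith
    · have hl' : 0 < ‖l‖ := norm_pos_iff.mpr hl
      have h1 := D.lower x (‖l‖ * t) (by positivity)
      rw [D.Phom l _ t hl, D.Qhom l _ t hl, D.mhom, norm_smul]
      have hx : ‖cx x‖ = ‖x‖ := by
        simp [cx, Prod.norm_def]
      rw [hx]
      have e1 : t * (‖l‖ * D.m (cx x)) = ‖l‖ * t * D.m (cx x) := by ring
      have e2 : t * (‖l‖ * ‖x‖) = ‖l‖ * t * ‖x‖ := by ring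
      rw [e1, e2]
      exact h1
  constructor
  · exact eq_aux hS D.JP D.JQ D.m D.M D.C D.hM D.hC D.P0 D.Psub D.Qsub D.upper D.madd D.mbd
      _ _ _ _ ht hz hlow
  · exact eq_aux hS D.JQ D.JP D.m D.M D.C D.hM D.hC D.Q0 D.Qsub D.Psub
      (fun z t ht => by rw [add_comm]; exact D.upper z t ht) D.madd D.mbd
      _ _ _ _ ht hz (by rw [add_comm (D.JQ _ _)]; exact hlow)

end Pool.Agent.H36.BP
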