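import Pool.Agent.H90.BP.LC

/-! # MP_d8fe2e_gt, module L0S: no zeros far from the imaginary axis -/

open MeasureTheory Set Filter Topology Metric
open scoped Real ENNReal NNReal

namespace Pool.Agent.H36.BP

open Pool.Agent.H66.BP

/-- one-sided mean value inequality, bounded case -/
lemma mono_nonneg_bdd (c b M : ℝ) (hcb : c ≤ b) (h g : ℝ → ℝ) (hc : Continuous h)
    (hh : ∀ x ∈ Icc c b, 0 ≤ ∫ u in x..b, h u)
    (hg : MonotoneOn g (Ioo c b)) (hb : ∀ x ∈ Ioo c b, 0 ≤ g x ∧ g x ≤ M) :
    0 ≤ ∫ u in c..b, h u * g u := by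
  obtain ⟨G, hGm, hGe, hGc⟩ : ∃ G : ℝ → ℝ, Measurable G ∧ EqOn g G (Ioo c b) ∧ Monotone G := by
    have hbb : BddBelow (g '' Ioo c b) := ⟨0, by rintro _ ⟨x, hx, rfl⟩; exact (hb x hx).1⟩
    have hba : BddAbove (g '' Ioo c b) := ⟨M, by rintro _ ⟨x, hx, rfl⟩; exact (hb x hx).2⟩
    obtain ⟨G, hG1, hG2⟩ := hg.exists_monotone_extension hbb hba
    exact ⟨G, hG1.measurable, hG2, hG1⟩
  have hφi : Integrable h (volume.restrict (Ioo c b)) :=
    (hc.integrableOn_Icc (a := c) (b := b)).mono_set Ioo_subset_Icc_self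
  have h1 : ∫ u in c..b, h u * g u = ∫ u in Ioo c b, h u * g u := by
    rw [intervalIntegral.integral_of_le hcb, setIntegral_congr_set Ioo_ae_eq_Ioc]
  have h2 : ∀ u ∈ Ioo c b, h u * g u = ∫ y in Ioo 0 M, (if y < G u then h u else 0) := by
    intro u hu
    have h3 := Pool.Agent.H90.BP.level_integral M (g u) (hb u hu).1 (hb u hu).2
    have h4 : ∀ y : ℝ, (if y < G u then h u else 0) = h u * (if y < g u then (1 : ℝ) else 0) := by
      intro y
      rw [← hGe hu]
      split_ifs <;> simp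
    simp only [h4]
    rw [integral_const_mul, h3]
  rw [h1, setIntegral_congr_fun measurableSet_Ioo h2]
  have hint : Integrable (Function.uncurry fun u y : ℝ => if y < G u then h u else 0)
      ((volume.restrict (Ioo c b)).prod (volume.restrict (Ioo 0 M))) := by
    have h5 : Integrable (fun z : ℝ × ℝ => h z.1 * (1 : ℝ))
        ((volume.restrict (Ioo c b)).prod (volume.restrict (Ioo 0 M))) :=
      hφi.mul_prod (integrable_const 1)
    have h6 : MeasurableSet {z : ℝ × ℝ | z.2 < G z.1} :=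
      measurableSet_lt measurable_snd (hGm.comp measurable_fst)
    have h7 := h5.indicator h6
    refine h7.congr (Eventually.of_forall fun z => ?_)
    simp only [indicator_apply, mem_ofPred_eq, Function.uncurry, mul_one]
  rw [integral_integral_swap hint]
  refine setIntegral_nonneg measurableSet_Ioo fun y _ => ?_
  have h8 : ∫ u in Ioo c b, (if y < G u then h u else 0) = ∫ u in Ioo c b ∩ {u | y < G u}, h u := by
    have h9 : MeasurableSet {u | y < G u} := measurableSet_lt measurable_const hGm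
    rw [← setIntegral_indicator h9]
    refine integral_congr_ae (Eventually.of_forall fun u => ?_)
    simp only [indicator_apply, mem_ofPred_eq]
  rw [h8]
  rcases (Ioo c b ∩ {u | y < G u}).eq_empty_or_nonempty with he | he
  · rw [he]; simp
  set L := Ioo c b ∩ {u | y < G u} with hL
  set d := sInf L with hd
  have hbb : BddBelow L := ⟨c, fun x hx => hx.1.1.le⟩
  have h10 : L ⊆ Ico d b := fun x hx => ⟨csInf_le hbb hx, hx.1.2⟩
  have h11 : Ioo d b ⊆ L := by
    intro x hx
    obtain ⟨p, hp, hpx⟩ := exists_lt_of_csInf_lt he hx.1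
    refine ⟨⟨hp.1.1.trans hpx, hx.2⟩, ?_⟩
    exact lt_of_lt_of_le hp.2 (hGc hpx.le)
  have hdm : d ∈ Icc c b := by
    refine ⟨le_csInf he fun x hx => hx.1.1.le, ?_⟩
    obtain ⟨x, hx⟩ := he
    exact (csInf_le hbb hx).trans hx.1.2.le
  have h12 : L =ᵐ[volume] Ioc d b := by
    refine EventuallyLE.antisymm ?_ ?_
    · exact (LE.le.eventuallyLE h10).trans Ico_ae_eq_Ioc.le
    · exact Ioo_ae_eq_Ioc.symm.le.trans (LE.le.eventuallyLE h11)
  rw [setIntegral_congr_set h12, ← intervalIntegral.integral_of_le hdm.2]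
  exact hh d hdm

/-- one-sided mean value inequality -/
lemma mono_nonneg (c b : ℝ) (hcb : c ≤ b) (h g : ℝ → ℝ) (hc : Continuous h)
    (hh : ∀ x ∈ Icc c b, 0 ≤ ∫ u in x..b, h u)
    (hg : MonotoneOn g (Ioo c b)) (hb : ∀ x ∈ Ioo c b, 0 ≤ g x)
    (hgi : IntervalIntegrable g volume c b) :
    0 ≤ ∫ u in c..b, h u * g u := by
  obtain ⟨A, hA⟩ : ∃ A, ∀ x ∈ Icc c b, ‖h x‖ ≤ A := by
    obtain ⟨A, hA⟩ := (isCompact_Icc (a := c) (b := b)).exists_bound_of_continuousOn hc.continuousOn
    exact ⟨A, hA⟩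
  have hgi' : Integrable g (volume.restrict (Ioo c b)) := by
    have := hgi.1
    exact this.mono_set Ioo_subset_Ioc_self
  have key : Tendsto (fun n : ℕ => ∫ u in Ioo c b, h u * min (g u) n) atTop
      (𝓝 (∫ u in Ioo c b, h u * g u)) := by
    refine tendsto_integral_of_dominated_convergence (fun u => A * ‖g u‖) ?_ ?_ ?_ ?_
    · intro n
      refine hc.aestronglyMeasurable.mul ?_
      have := hgi'.aestronglyMeasurable.inf (aestronglyMeasurable_const (b := (n : ℝ)))
      exact this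
    · exact hgi'.norm.const_mul A
    · intro n
      refine (ae_restrict_iff' measurableSet_Ioo).2 (Eventually.of_forall fun u hu => ?_)
      rw [norm_mul]
      have h1 := hA u ⟨hu.1.le, hu.2.le⟩
      have h2 := hb u hu
      refine mul_le_mul h1 ?_ (norm_nonneg _) ((norm_nonneg _).trans h1)
      rw [Real.norm_of_nonneg h2, Real.norm_of_nonneg (le_min h2 (Nat.cast_nonneg n))]
      exact min_le_left _ _
    · refine Eventually.of_forall fun u => ?_
      refine Tendsto.const_mul _ ?_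
      refine tendsto_const_nhds.congr' ?_
      obtain ⟨N, hN⟩ := exists_nat_ge (g u)
      filter_upwards [eventually_ge_atTop N] with n hn
      rw [min_eq_left]
      exact hN.trans (by exact_mod_cast hn)
  have h1 : ∫ u in c..b, h u * g u = ∫ u in Ioo c b, h u * g u := by
    rw [intervalIntegral.integral_of_le hcb, setIntegral_congr_set Ioo_ae_eq_Ioc]
  rw [h1]
  refine ge_of_tendsto key (Eventually.of_forall fun n => ?_)
  have h2 := mono_nonneg_bdd c b n hcb h (fun u => min (g u) n) hc hh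
    (fun x hx y hy hxy => min_le_min_right _ (hg hx hy hxy))
    (fun x hx => ⟨le_min (hb x hx) (Nat.cast_nonneg n), min_le_right _ _⟩)
  rwa [intervalIntegral.integral_of_le hcb, setIntegral_congr_set Ioo_ae_eq_Ioc.symm] at h2


/-- the weight -/
noncomputable def Wt (l : ℂ) (b u : ℝ) : ℂ := l * Complex.exp (-(l * ((b - u : ℝ) : ℂ)))

lemma continuous_Wt (l : ℂ) (b : ℝ) : Continuous (Wt l b) := by
  unfold Wt
  fun_prop

lemma integral_Wt (l : ℂ) (b x y : ℝ) :
    ∫ u in x..y, Wt l b u = Complex.exp (-(l * ((b - y : ℝ) : ℂ))) -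
      Complex.exp (-(l * ((b - x : ℝ) : ℂ))) := by
  refine intervalIntegral.integral_eq_sub_of_hasDerivAt
    (f := fun u : ℝ => Complex.exp (-(l * ((b - u : ℝ) : ℂ)))) (fun u _ => ?_)
    ((continuous_Wt l b).intervalIntegrable _ _)
  have h1 : HasDerivAt (fun u : ℝ => ((b - u : ℝ) : ℂ)) (-1) u := by
    have : HasDerivAt (fun u : ℝ => b - u) (-1) u := by
      simpa using (hasDerivAt_id u).const_sub b
    simpa using this.ofReal_comp
  have h2 := ((h1.const_mul l).neg).cexp
  have : Wt l b u = Complex.exp (-(l * ((b - u : ℝ) : ℂ))) * -(l * -1) := by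
    unfold Wt
    ring
  rw [this]
  exact h2

lemma norm_exp_le {l : ℂ} (hl : 0 ≤ l.re) {t : ℝ} (ht : 0 ≤ t) :
    ‖Complex.exp (-(l * (t : ℂ)))‖ ≤ 1 := by
  rw [Complex.norm_exp]
  have : (-(l * (t : ℂ))).re = -(l.re * t) := by simp
  rw [this]
  exact Real.exp_le_one_iff.2 (by nlinarith [mul_nonneg hl ht])

lemma norm_exp_eq (l : ℂ) (t : ℝ) : ‖Complex.exp (-(l * (t : ℂ)))‖ = Real.exp (-(l.re * t)) := by
  rw [Complex.norm_exp]
  congr 1
  simp

lemma ii_re {f : ℝ → ℂ} {c b : ℝ} (h : IntervalIntegrable f volume c b) :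
    ∫ u in c..b, (f u).re = (∫ u in c..b, f u).re :=
  Complex.reCLM.intervalIntegral_comp_comm h

lemma ii_ofReal {g : ℝ → ℝ} {c b : ℝ} (h : IntervalIntegrable g volume c b) :
    IntervalIntegrable (fun u => (g u : ℂ)) volume c b :=
  ⟨h.1.ofReal, h.2.ofReal⟩

/-- Chebyshev type lower bound -/
lemma keyA (l : ℂ) (c b : ℝ) (hcb : c < b) (g : ℝ → ℝ)
    (hg : MonotoneOn g (Ioo c b)) (hb : ∀ x ∈ Ioo c b, 0 ≤ g x)
    (hgi : IntervalIntegrable g volume c b) :
    (1 - Real.exp (-(l.re * (b - c)))) / (b - c) * ∫ u in c..b, g u ≤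
      (∫ u in c..b, Wt l b u * (g u : ℂ)).re := by
  set m := (1 - Real.exp (-(l.re * (b - c)))) / (b - c) with hm
  have hbc : 0 < b - c := sub_pos.2 hcb
  have hW : Continuous fun u => (Wt l b u).re := Complex.continuous_re.comp (continuous_Wt l b)
  have h1 : 0 ≤ ∫ u in c..b, ((Wt l b u).re - m) * g u := by
    refine mono_nonneg c b hcb.le _ g (hW.sub continuous_const) ?_ hg hb hgi
    intro x hx
    have h2 : ∫ u in x..b, ((Wt l b u).re - m) =
        1 - (Complex.exp (-(l * ((b - x : ℝ) : ℂ)))).re - (b - x) * m := by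
      rw [intervalIntegral.integral_sub (hW.intervalIntegrable _ _)
        (continuous_const.intervalIntegrable _ _), intervalIntegral.integral_const, smul_eq_mul]
      have h3 : ∫ u in x..b, (Wt l b u).re = (∫ u in x..b, Wt l b u).re :=
        ii_re ((continuous_Wt l b).intervalIntegrable _ _)
      rw [h3, integral_Wt]
      simp
    rw [h2]
    have h4 : (Complex.exp (-(l * ((b - x : ℝ) : ℂ)))).re ≤ Real.exp (-(l.re * (b - x))) := by
      rw [← norm_exp_eq]
      exact Complex.re_le_norm _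
    -- concavity of `1 - exp(-σ t)`
    have h5 : (b - x) * m ≤ 1 - Real.exp (-(l.re * (b - x))) := by
      set θ := (b - x) / (b - c) with hθ
      have hθ0 : 0 ≤ θ := div_nonneg (by linarith [hx.2]) hbc.le
      have hθ1 : θ ≤ 1 := (div_le_one hbc).2 (by linarith [hx.1])
      have h6 := convexOn_exp.2 (mem_univ (-(l.re * (b - c)))) (mem_univ (0 : ℝ)) hθ0
        (sub_nonneg.2 hθ1) (by ring)
      simp only [smul_eq_mul, mul_zero, add_zero, Real.exp_zero, mul_one] at h6
      have h7 : θ * -(l.re * (b - c)) = -(l.re * (b - x)) := by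
        rw [hθ]
        field_simp
      rw [h7] at h6
      have h8 : (b - x) * m = θ * (1 - Real.exp (-(l.re * (b - c)))) := by
        rw [hm, hθ]
        field_simp
      rw [h8]
      linarith
    linarith
  have h9 : IntervalIntegrable (fun u => (Wt l b u).re * g u) volume c b :=
    hgi.continuousOn_mul hW.continuousOn
  have h10 : ∫ u in c..b, ((Wt l b u).re - m) * g u =
      (∫ u in c..b, (Wt l b u).re * g u) - m * ∫ u in c..b, g u := by
    rw [← intervalIntegral.integral_const_mul, ← intervalIntegral.integral_sub h9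
      (hgi.const_mul m)]
    congr 1
    ext u
    ring
  have hgc : IntervalIntegrable (fun u => (g u : ℂ)) volume c b := ii_ofReal hgi
  have h11 : (∫ u in c..b, Wt l b u * (g u : ℂ)).re = ∫ u in c..b, (Wt l b u).re * g u := by
    have := ii_re (c := c) (b := b) (f := fun u => Wt l b u * (g u : ℂ))
      (hgc.continuousOn_mul (continuous_Wt l b).continuousOn)
    refine this.symm.trans ?_
    congr 1
    ext u
    simp
  rw [h11]
  linarith

lemma keyB (l : ℂ) (c b M : ℝ) (hcb : c ≤ b) (hl : 0 ≤ l.re) (hM : 0 ≤ M) (g : ℝ → ℝ)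
    (hg : MonotoneOn g (Ioo c b) ∨ AntitoneOn g (Ioo c b))
    (hb : ∀ x ∈ Ioo c b, 0 ≤ g x ∧ g x ≤ M) :
    ‖∫ u in c..b, Wt l b u * (g u : ℂ)‖ ≤ 2 * M := by
  rw [mul_comm]
  refine Pool.Agent.H90.BP.LC_proof c b M 2 (Wt l b) g hcb hM
    ((continuous_Wt l b).intervalIntegrable _ _) ?_ hg hb
  intro x hx y hy hxy
  rw [integral_Wt]
  refine (norm_sub_le _ _).trans ?_
  have h1 := norm_exp_le hl (t := b - y) (by linarith [hy.2])
  have h2 := norm_exp_le hl (t := b - x) (by linarith [hx.2])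
  linarith


noncomputable def nq (t : ℝ) : ℝ := Real.sqrt (1 + t ^ 2)

noncomputable def Dq (t : ℝ) : ℝ := Real.sqrt (1 + (max t 0) ^ 2)

noncomputable def Uq (t : ℝ) : ℝ := Real.sqrt (1 + (min t 0) ^ 2) - 1

lemma nq_eq (t : ℝ) : nq t = Dq t + Uq t := by
  unfold nq Dq Uq
  rcases le_total t 0 with h | h
  · rw [max_eq_right h, min_eq_left h]
    simp
  · rw [max_eq_left h, min_eq_right h]
    simp

lemma continuous_nq : Continuous nq := by unfold nq; fun_prop
lemma continuous_Dq : Continuous Dq := by unfold Dq; fun_prop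
lemma continuous_Uq : Continuous Uq := by unfold Uq; fun_prop

lemma one_le_Dq (t : ℝ) : 1 ≤ Dq t := by
  unfold Dq
  rw [Real.one_le_sqrt]
  nlinarith [sq_nonneg (max t 0)]

lemma Uq_nonneg (t : ℝ) : 0 ≤ Uq t := by
  unfold Uq
  have : 1 ≤ Real.sqrt (1 + (min t 0) ^ 2) := by
    rw [Real.one_le_sqrt]
    nlinarith [sq_nonneg (min t 0)]
  linarith

lemma Dq_mono : Monotone Dq := by
  intro x y hxy
  unfold Dq
  apply Real.sqrt_le_sqrt
  have h1 : 0 ≤ max x 0 := le_max_right _ _
  have h2 : max x 0 ≤ max y 0 := max_le_max hxy le_rfl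
  nlinarith

lemma Uq_anti : Antitone Uq := by
  intro x y hxy
  unfold Uq
  have h1 : min y 0 ≤ 0 := min_le_right _ _
  have h2 : min x 0 ≤ min y 0 := min_le_min hxy le_rfl
  have : Real.sqrt (1 + (min y 0) ^ 2) ≤ Real.sqrt (1 + (min x 0) ^ 2) := by
    apply Real.sqrt_le_sqrt
    nlinarith
  linarith

lemma nq_le_nq {s t : ℝ} (h : |s| ≤ |t|) : nq s ≤ nq t := by
  unfold nq
  apply Real.sqrt_le_sqrt
  have := sq_le_sq.2 h
  linarith

lemma Uq_le {t K : ℝ} (hK : 0 ≤ K) (h : -K ≤ t) : Uq t ≤ K := by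
  unfold Uq
  have h1 : -K ≤ min t 0 := le_min h (by linarith)
  have h2 : min t 0 ≤ 0 := min_le_right _ _
  have : Real.sqrt (1 + (min t 0) ^ 2) ≤ 1 + K := by
    rw [Real.sqrt_le_left (by linarith)]
    nlinarith
  linarith

lemma le_Dq (t : ℝ) : t ≤ Dq t := by
  rcases le_total t 0 with h | h
  · exact h.trans (zero_le_one.trans (one_le_Dq t))
  · unfold Dq
    apply Real.le_sqrt_of_sq_le
    rw [max_eq_left h]
    linarith

lemma comp_ii {c b : ℝ} {q : ℝ → ℝ} (hq : IntervalIntegrable q volume c b)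
    (hn : IntervalIntegrable (fun u => nq (q u)) volume c b) {Φ : ℝ → ℝ} (hΦ : Continuous Φ)
    (hb : ∀ t, |Φ t| ≤ nq t) : IntervalIntegrable (fun u => Φ (q u)) volume c b := by
  refine hn.mono_fun (hΦ.comp_aestronglyMeasurable hq.def'.aestronglyMeasurable)
    (Eventually.of_forall fun u => ?_)
  simp only [Real.norm_eq_abs]
  exact (hb _).trans (le_abs_self _)

lemma Dq_le_nq (t : ℝ) : |Dq t| ≤ nq t := by
  rw [abs_of_nonneg (by linarith [one_le_Dq t]), nq_eq]
  linarith [Uq_nonneg t]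

lemma Uq_le_nq (t : ℝ) : |Uq t| ≤ nq t := by
  rw [abs_of_nonneg (Uq_nonneg t), nq_eq]
  linarith [one_le_Dq t]

lemma ii_W {l : ℂ} {c b : ℝ} {g : ℝ → ℝ} (hg : IntervalIntegrable g volume c b) :
    IntervalIntegrable (fun u => Wt l b u * (g u : ℂ)) volume c b :=
  (ii_ofReal hg).continuousOn_mul (continuous_Wt l b).continuousOn

lemma W_add {l : ℂ} {c b : ℝ} {f g : ℝ → ℝ} (hf : IntervalIntegrable f volume c b)
    (hg : IntervalIntegrable g volume c b) :
    ∫ u in c..b, Wt l b u * ((f u + g u : ℝ) : ℂ) =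
      (∫ u in c..b, Wt l b u * (f u : ℂ)) + ∫ u in c..b, Wt l b u * (g u : ℂ) := by
  rw [← intervalIntegral.integral_add (ii_W hf) (ii_W hg)]
  congr 1
  ext u
  push_cast
  ring

lemma W_sub {l : ℂ} {c b : ℝ} {f g : ℝ → ℝ} (hf : IntervalIntegrable f volume c b)
    (hg : IntervalIntegrable g volume c b) :
    ∫ u in c..b, Wt l b u * ((f u - g u : ℝ) : ℂ) =
      (∫ u in c..b, Wt l b u * (f u : ℂ)) - ∫ u in c..b, Wt l b u * (g u : ℂ) := by
  rw [← intervalIntegral.integral_sub (ii_W hf) (ii_W hg)]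
  congr 1
  ext u
  push_cast
  ring

lemma W_const {l : ℂ} {c b k : ℝ} :
    ∫ u in c..b, Wt l b u * (k : ℂ) = (1 - Complex.exp (-(l * ((b - c : ℝ) : ℂ)))) * k := by
  rw [intervalIntegral.integral_mul_const, integral_Wt]
  simp

lemma case1 (l : ℂ) (c b : ℝ) (hcb : c < b) (hl : 0 ≤ l.re) (q1 q2 : ℝ → ℝ)
    (h1 : MonotoneOn q1 (Ico c b)) (h2 : MonotoneOn q2 (Ico c b))
    (i2 : IntervalIntegrable q2 volume c b)
    (j1 : IntervalIntegrable (fun u => nq (q1 u)) volume c b)
    (j2 : IntervalIntegrable (fun u => nq (q2 u)) volume c b)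
    (h12 : |q2 c| ≤ q1 c) (K : ℝ) (hK : -K ≤ q2 c) (hK0 : 0 ≤ K) :
    2 * (1 - Real.exp (-(l.re * (b - c)))) - 2 * K * Real.exp (-(l.re * (b - c))) ≤
      (∫ u in c..b, Wt l b u * ((nq (q1 u) + nq (q2 u) : ℝ) : ℂ)).re := by
  set E := Real.exp (-(l.re * (b - c))) with hE
  have hbc : 0 < b - c := sub_pos.2 hcb
  have hE0 : 0 < E := Real.exp_pos _
  have hE1 : E ≤ 1 := Real.exp_le_one_iff.2 (by nlinarith [mul_nonneg hl hbc.le])
  set v := Uq (q2 c) with hv
  have hv0 : 0 ≤ v := Uq_nonneg _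
  have hvK : v ≤ K := Uq_le hK0 hK
  have hcm : c ∈ Ico c b := ⟨le_rfl, hcb⟩
  have hsub : Ioo c b ⊆ Ico c b := Ioo_subset_Ico_self
  have hq1c : 0 ≤ q1 c := (abs_nonneg _).trans h12
  have k1 : ∀ x ∈ Ioo c b, q1 c ≤ q1 x := fun x hx => h1 hcm (hsub hx) hx.1.le
  have k2 : ∀ x ∈ Ioo c b, q2 c ≤ q2 x := fun x hx => h2 hcm (hsub hx) hx.1.le
  have hn1 : ∀ x ∈ Ioo c b, 1 + v ≤ nq (q1 x) := by
    intro x hx
    have e1 : 1 + v = nq (min (q2 c) 0) := by
      rw [hv]
      unfold Uq nq
      ring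
    rw [e1]
    apply nq_le_nq
    rw [abs_of_nonneg (hq1c.trans (k1 x hx))]
    refine le_trans ?_ (h12.trans (k1 x hx))
    rcases le_total (q2 c) 0 with h | h
    · rw [min_eq_left h]
    · rw [min_eq_right h]; simp
  -- the three pieces
  have jD : IntervalIntegrable (fun u => Dq (q2 u)) volume c b :=
    comp_ii i2 j2 continuous_Dq Dq_le_nq
  have jU : IntervalIntegrable (fun u => Uq (q2 u)) volume c b :=
    comp_ii i2 j2 continuous_Uq Uq_le_nq
  have jc : IntervalIntegrable (fun _ : ℝ => v) volume c b := intervalIntegrable_const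
  have jc2 : IntervalIntegrable (fun _ : ℝ => 2 * v) volume c b := intervalIntegrable_const
  have hsplit : ∫ u in c..b, Wt l b u * ((nq (q1 u) + nq (q2 u) : ℝ) : ℂ) =
      (∫ u in c..b, Wt l b u * ((nq (q1 u) - v : ℝ) : ℂ)) +
      (∫ u in c..b, Wt l b u * ((Dq (q2 u) : ℝ) : ℂ)) +
      (∫ u in c..b, Wt l b u * ((2 * v : ℝ) : ℂ)) -
      (∫ u in c..b, Wt l b u * ((v - Uq (q2 u) : ℝ) : ℂ)) := by
    rw [← W_add (j1.sub jc) jD, ← W_add ((j1.sub jc).add jD) jc2,
      ← W_sub (((j1.sub jc).add jD).add jc2) (jc.sub jU)]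
    congr 1
    ext u
    rw [nq_eq (q2 u)]
    congr 2
    ring
  rw [hsplit]
  have r1 : 1 - E ≤ (∫ u in c..b, Wt l b u * ((nq (q1 u) - v : ℝ) : ℂ)).re := by
    refine le_trans ?_ (keyA l c b hcb (fun u => nq (q1 u) - v) ?_ ?_ (j1.sub jc))
    · have : (b - c) * 1 ≤ ∫ u in c..b, (nq (q1 u) - v) := by
        have h3 : ∫ u in c..b, (1 : ℝ) = (b - c) * 1 := by
          rw [intervalIntegral.integral_const, smul_eq_mul]
        rw [← h3]
        refine intervalIntegral.integral_mono_on_of_le_Ioo hcb.le intervalIntegrable_const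
          (j1.sub jc) fun x hx => ?_
        have := hn1 x hx
        linarith
      calc 1 - E = (1 - E) / (b - c) * ((b - c) * 1) := by field_simp
        _ ≤ _ := mul_le_mul_of_nonneg_left this (div_nonneg (by linarith) hbc.le)
    · intro x hx y hy hxy
      have h3 : nq (q1 x) ≤ nq (q1 y) := by
        apply nq_le_nq
        rw [abs_of_nonneg (hq1c.trans (k1 x hx)), abs_of_nonneg (hq1c.trans (k1 y hy))]
        exact h1 (hsub hx) (hsub hy) hxy
      simp only
      linarith
    · intro x hx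
      have := hn1 x hx
      linarith
  have r2 : 1 - E ≤ (∫ u in c..b, Wt l b u * ((Dq (q2 u) : ℝ) : ℂ)).re := by
    refine le_trans ?_ (keyA l c b hcb (fun u => Dq (q2 u)) ?_ ?_ jD)
    · have : (b - c) * 1 ≤ ∫ u in c..b, Dq (q2 u) := by
        have h3 : ∫ u in c..b, (1 : ℝ) = (b - c) * 1 := by
          rw [intervalIntegral.integral_const, smul_eq_mul]
        rw [← h3]
        exact intervalIntegral.integral_mono_on_of_le_Ioo hcb.le intervalIntegrable_const
          jD fun x _ => one_le_Dq _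
      calc 1 - E = (1 - E) / (b - c) * ((b - c) * 1) := by field_simp
        _ ≤ _ := mul_le_mul_of_nonneg_left this (div_nonneg (by linarith) hbc.le)
    · intro x hx y hy hxy
      exact Dq_mono (h2 (hsub hx) (hsub hy) hxy)
    · intro x hx
      linarith [one_le_Dq (q2 x)]
  have r3 : 2 * v * (1 - E) ≤ (∫ u in c..b, Wt l b u * ((2 * v : ℝ) : ℂ)).re := by
    rw [W_const, Complex.re_mul_ofReal]
    have h4 : (Complex.exp (-(l * ((b - c : ℝ) : ℂ)))).re ≤ E := by
      rw [hE, ← norm_exp_eq]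
      exact Complex.re_le_norm _
    rw [Complex.sub_re, Complex.one_re]
    nlinarith
  have r4 : (∫ u in c..b, Wt l b u * ((v - Uq (q2 u) : ℝ) : ℂ)).re ≤ 2 * v := by
    refine (Complex.re_le_norm _).trans ?_
    refine keyB l c b v hcb.le hl hv0 (fun u => v - Uq (q2 u)) (Or.inl ?_) ?_
    · intro x hx y hy hxy
      have := Uq_anti (h2 (hsub hx) (hsub hy) hxy)
      simp only
      linarith
    · intro x hx
      have := Uq_anti (k2 x hx)
      have h5 := Uq_nonneg (q2 x)
      constructor <;> linarith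
  simp only [Complex.add_re, Complex.sub_re]
  nlinarith

lemma case2 (l : ℂ) (c b : ℝ) (hcb : c < b) (hl : 0 ≤ l.re) (q1 q2 : ℝ → ℝ)
    (h1 : MonotoneOn q1 (Ico c b)) (h2 : MonotoneOn q2 (Ico c b))
    (i1 : IntervalIntegrable q1 volume c b) (i2 : IntervalIntegrable q2 volume c b)
    (j1 : IntervalIntegrable (fun u => nq (q1 u)) volume c b)
    (j2 : IntervalIntegrable (fun u => nq (q2 u)) volume c b)
    (K : ℝ) (hK1 : -K ≤ q1 c) (hK2 : -K ≤ q2 c) (hK0 : 0 ≤ K) :
    (1 - Real.exp (-(l.re * (b - c)))) / (b - c) * (∫ u in c..b, (q1 u + q2 u)) - 4 * K ≤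
      (∫ u in c..b, Wt l b u * ((nq (q1 u) + nq (q2 u) : ℝ) : ℂ)).re := by
  set E := Real.exp (-(l.re * (b - c))) with hE
  have hbc : 0 < b - c := sub_pos.2 hcb
  have hE0 : 0 < E := Real.exp_pos _
  have hE1 : E ≤ 1 := Real.exp_le_one_iff.2 (by nlinarith [mul_nonneg hl hbc.le])
  have hcm : c ∈ Ico c b := ⟨le_rfl, hcb⟩
  have hsub : Ioo c b ⊆ Ico c b := Ioo_subset_Ico_self
  have jD1 : IntervalIntegrable (fun u => Dq (q1 u)) volume c b :=
    comp_ii i1 j1 continuous_Dq Dq_le_nq
  have jU1 : IntervalIntegrable (fun u => Uq (q1 u)) volume c b :=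
    comp_ii i1 j1 continuous_Uq Uq_le_nq
  have jD2 : IntervalIntegrable (fun u => Dq (q2 u)) volume c b :=
    comp_ii i2 j2 continuous_Dq Dq_le_nq
  have jU2 : IntervalIntegrable (fun u => Uq (q2 u)) volume c b :=
    comp_ii i2 j2 continuous_Uq Uq_le_nq
  have hsplit : ∫ u in c..b, Wt l b u * ((nq (q1 u) + nq (q2 u) : ℝ) : ℂ) =
      (∫ u in c..b, Wt l b u * ((Dq (q1 u) + Dq (q2 u) : ℝ) : ℂ)) +
      ((∫ u in c..b, Wt l b u * ((Uq (q1 u) : ℝ) : ℂ)) +
      (∫ u in c..b, Wt l b u * ((Uq (q2 u) : ℝ) : ℂ))) := by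
    rw [← W_add jU1 jU2, ← W_add (jD1.add jD2) (jU1.add jU2)]
    congr 1
    ext u
    rw [nq_eq (q1 u), nq_eq (q2 u)]
    congr 2
    ring
  rw [hsplit]
  have r1 : (1 - E) / (b - c) * (∫ u in c..b, (q1 u + q2 u)) ≤
      (∫ u in c..b, Wt l b u * ((Dq (q1 u) + Dq (q2 u) : ℝ) : ℂ)).re := by
    refine le_trans ?_ (keyA l c b hcb (fun u => Dq (q1 u) + Dq (q2 u)) ?_ ?_ (jD1.add jD2))
    · refine mul_le_mul_of_nonneg_left ?_ (div_nonneg (by linarith) hbc.le)
      exact intervalIntegral.integral_mono_on hcb.le (i1.add i2) (jD1.add jD2)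
        fun x _ => add_le_add (le_Dq _) (le_Dq _)
    · intro x hx y hy hxy
      exact add_le_add (Dq_mono (h1 (hsub hx) (hsub hy) hxy)) (Dq_mono (h2 (hsub hx) (hsub hy) hxy))
    · intro x hx
      linarith [one_le_Dq (q2 x), one_le_Dq (q1 x)]
  have r2 : ∀ q : ℝ → ℝ, MonotoneOn q (Ico c b) → -K ≤ q c →
      -(2 * K) ≤ (∫ u in c..b, Wt l b u * ((Uq (q u) : ℝ) : ℂ)).re := by
    intro q hq hqc
    have h3 := keyB l c b K hcb.le hl hK0 (fun u => Uq (q u)) (Or.inr ?_) ?_
    · have h4 := Complex.abs_re_le_norm (∫ u in c..b, Wt l b u * ((Uq (q u) : ℝ) : ℂ))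
      have h5 := neg_abs_le (∫ u in c..b, Wt l b u * ((Uq (q u) : ℝ) : ℂ)).re
      linarith
    · intro x hx y hy hxy
      exact Uq_anti (hq (hsub hx) (hsub hy) hxy)
    · intro x hx
      refine ⟨Uq_nonneg _, Uq_le hK0 ?_⟩
      exact hqc.trans (hq hcm (hsub hx) hx.1.le)
  have r3 := r2 q1 h1 hK1
  have r4 := r2 q2 h2 hK2
  simp only [Complex.add_re]
  linarith


lemma F_zero (S : Strip) : (S.F 0).re = (∫ x in S.a..S.b, al S.T x) + (∫ x in S.a..S.b, al S.B x) +
    (S.T S.a - S.B S.a) + (S.T S.b - S.B S.b) := by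
  unfold Strip.F
  simp only [Prod.fst_zero, Prod.snd_zero, zero_mul, add_zero, Complex.exp_zero, one_mul]
  rw [intervalIntegral.integral_ofReal, intervalIntegral.integral_ofReal]
  simp only [intervalIntegral.integral_const, Complex.add_re, Complex.ofReal_re]
  simp

lemma F_eq (S : Strip) (l : ℂ) : l * S.F (0, l) * Complex.exp (-(l * (S.b : ℂ))) =
    (∫ x in S.a..S.b, Wt l S.b x * (al S.T x : ℂ)) + (∫ x in S.a..S.b, Wt l S.b x * (al S.B x : ℂ)) +
    l * ((S.T S.a - S.B S.a : ℝ) : ℂ) * Complex.exp (-(l * ((S.b - S.a : ℝ) : ℂ))) +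
    l * ((S.T S.b - S.B S.b : ℝ) : ℂ) := by
  have h1 : ∀ f : ℝ → ℝ, l * (∫ x in S.a..S.b,
      Complex.exp (((0, l) : ℂ × ℂ).1 * (f x : ℂ) + ((0, l) : ℂ × ℂ).2 * (x : ℂ)) * (al f x : ℂ)) *
        Complex.exp (-(l * (S.b : ℂ))) = ∫ x in S.a..S.b, Wt l S.b x * (al f x : ℂ) := by
    intro f
    rw [← intervalIntegral.integral_const_mul, ← intervalIntegral.integral_mul_const]
    congr 1
    ext x
    simp only [zero_mul, zero_add]
    unfold Wt
    have : Complex.exp (-(l * ((S.b - x : ℝ) : ℂ))) =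
        Complex.exp (l * (x : ℂ)) * Complex.exp (-(l * (S.b : ℂ))) := by
      rw [← Complex.exp_add]
      congr 1
      push_cast
      ring
    rw [this]
    ring
  have h2 : ∀ x : ℝ, ∫ y in S.B x..S.T x,
      Complex.exp (((0, l) : ℂ × ℂ).1 * (y : ℂ) + ((0, l) : ℂ × ℂ).2 * (x : ℂ)) =
      ((S.T x - S.B x : ℝ) : ℂ) * Complex.exp (l * (x : ℂ)) := by
    intro x
    simp only [zero_mul, zero_add]
    rw [intervalIntegral.integral_const]
    simp
  unfold Strip.F
  rw [h2 S.a, h2 S.b, ← h1 S.T, ← h1 S.B]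
  have h3 : Complex.exp (-(l * ((S.b - S.a : ℝ) : ℂ))) =
      Complex.exp (l * (S.a : ℂ)) * Complex.exp (-(l * (S.b : ℂ))) := by
    rw [← Complex.exp_add]
    congr 1
    push_cast
    ring
  have h4 : Complex.exp (l * (S.b : ℂ)) * Complex.exp (-(l * (S.b : ℂ))) = 1 := by
    rw [← Complex.exp_add]
    simp
  rw [h3]
  linear_combination (l * ((S.T S.b - S.B S.b : ℝ) : ℂ)) * h4

lemma al_T (S : Strip) (x : ℝ) : al S.T x = nq (- rd S.T x) := by
  unfold al nq
  rw [neg_sq]

lemma al_B (S : Strip) (x : ℝ) : al S.B x = nq (rd S.B x) := rfl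

lemma rdT_mono (S : Strip) : MonotoneOn (fun x => - rd S.T x) (Ioo S.a S.b) := by
  have h := S.concT.neg.monotoneOn_rightDeriv
  rw [interior_Icc] at h
  intro x hx y hy hxy
  have := h hx hy hxy
  have e : ∀ x, derivWithin (-S.T) (Ioi x) x = - rd S.T x := by
    intro x
    unfold rd
    exact derivWithin.neg
  simp only [e] at this
  exact this

lemma rdB_mono (S : Strip) : MonotoneOn (rd S.B) (Ioo S.a S.b) := by
  have h := S.convB.monotoneOn_rightDeriv
  rw [interior_Icc] at h
  exact h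


/-- the bound of the slopes at an interior point -/
lemma slope_bound (a b c p : ℝ) (q f : ℝ → ℝ) (hac : a < c) (hcb : c < b) (hq : MonotoneOn q (Ioo a b))
    (hi : IntervalIntegrable q volume a b)
    (hf : ∫ u in a..c, q u = f c - f a) (hp : |f c - f a| ≤ p) : -(p / (c - a)) ≤ q c := by
  have h1 : ∫ u in a..c, q u ≤ ∫ u in a..c, q c := by
    refine intervalIntegral.integral_mono_on_of_le_Ioo hac.le ?_ intervalIntegrable_const
      fun x hx => hq ⟨hx.1, hx.2.trans hcb⟩ ⟨hac, hcb⟩ hx.2.le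
    exact hi.mono_set (by
      rw [uIcc_of_le hac.le, uIcc_of_le (hac.trans hcb).le]
      exact Icc_subset_Icc le_rfl hcb.le)
  rw [intervalIntegral.integral_const, smul_eq_mul, hf] at h1
  have h2 : -p ≤ (c - a) * q c := by
    have := neg_abs_le (f c - f a)
    linarith
  have h3 : 0 < c - a := sub_pos.2 hac
  rw [neg_le, ← sub_nonneg]
  have : 0 ≤ (p - (c - a) * (-q c)) / (c - a) := div_nonneg (by linarith) h3.le
  have h4 : (p - (c - a) * (-q c)) / (c - a) = p / (c - a) - -q c := by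
    field_simp
  linarith

theorem l0s (hALI : T_ALI) : T_L0S := by
  intro ρ p hρ hp
  set C : ℝ := 4 + 6 / ρ + 32 * p / ρ + 8 * p + 12 / ρ * (2 + 8 * p / ρ + p) with hC
  have c1 : 0 < 6 / ρ := by positivity
  have c2 : 0 < 32 * p / ρ := by positivity
  have c3 : 0 < 12 / ρ * (2 + 8 * p / ρ + p) := by positivity
  have hC4 : 4 ≤ C := by linarith
  have hC0 : 0 < C := by linarith
  refine ⟨C, hC0, fun S hL hx hF l hl => ?_⟩
  obtain ⟨iT, rT, dT⟩ := hALI S.a S.b S.T S.hab (Or.inr S.concT) S.contT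
  obtain ⟨iB, rB, dB⟩ := hALI S.a S.b S.B S.hab (Or.inl S.convB) S.contB
  rw [F_zero] at hF
  set a := S.a with ha
  set b := S.b with hb
  have hab : a < b := S.hab
  have ham : a ∈ Icc a b := ⟨le_rfl, hab.le⟩
  have hbm : b ∈ Icc a b := ⟨hab.le, le_rfl⟩
  have hβa : 0 ≤ S.T a - S.B a := sub_nonneg.2 (S.le a ham)
  have hβb : 0 ≤ S.T b - S.B b := sub_nonneg.2 (S.le b hbm)
  have hT0 : 0 ≤ ∫ x in a..b, al S.T x :=
    intervalIntegral.integral_nonneg hab.le fun x _ => Real.sqrt_nonneg _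
  have hB0 : 0 ≤ ∫ x in a..b, al S.B x :=
    intervalIntegral.integral_nonneg hab.le fun x _ => Real.sqrt_nonneg _
  -- sizes
  set lam := ‖l‖ with hlam
  set σ := l.re with hσ
  have hσlam : σ ≤ lam := Complex.re_le_norm l
  have hlam0 : 0 ≤ lam := norm_nonneg _
  have hlog2 : (1 : ℝ) / 2 ≤ Real.log (2 + lam) := by
    have h1 : Real.log 2 ≤ Real.log (2 + lam) := Real.log_le_log (by norm_num) (by linarith)
    have h2 := Real.log_two_gt_d9
    linarith
  have hσC : C / 2 ≤ σ := by nlinarith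
  have hσ0 : 0 < σ := by linarith
  have hlamC : C / 2 ≤ lam := hσC.trans hσlam
  have hlam2 : 2 ≤ lam := by linarith
  have hloglam : (1 : ℝ) / 2 ≤ Real.log lam := by
    have h1 : Real.log 2 ≤ Real.log lam := Real.log_le_log (by norm_num) hlam2
    have h2 := Real.log_two_gt_d9
    linarith
  have hloglam' : Real.log lam ≤ Real.log (2 + lam) := Real.log_le_log (by linarith) (by linarith)
  set e := 3 * Real.log lam / σ with he
  have he0 : 0 < e := by positivity
  have hσe : σ * e = 3 * Real.log lam := by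
    rw [he]; field_simp
  have hCe : C * e ≤ 3 := by
    have h1 : C * Real.log lam ≤ σ := le_trans (by nlinarith) hl
    have h2 : C * e = 3 * (C * Real.log lam) / σ := by rw [he]; ring
    rw [h2, div_le_iff₀ hσ0]
    linarith
  have heρ : e ≤ ρ / 2 := by
    have h1 : 6 / ρ * e ≤ 3 := by
      refine le_trans (mul_le_mul_of_nonneg_right ?_ he0.le) hCe
      have : 0 < 8 * p := by positivity
      linarith
    have h2 : 6 / ρ * e = 6 * e / ρ := by ring
    rw [h2, div_le_iff₀ hρ] at h1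
    linarith
  set c := b - e with hc
  have hcb : c < b := by linarith
  have hac : a < c := by linarith
  have hbc : b - c = e := by rw [hc]; ring
  have hca : ρ / 2 ≤ c - a := by linarith
  have hca2 : (b - a) / 2 ≤ c - a := by linarith
  have hcm : c ∈ Icc a b := ⟨hac.le, hcb.le⟩
  have hcm' : c ∈ Ioo a b := ⟨hac, hcb⟩
  set E := Real.exp (-(σ * (b - c))) with hE
  have hEval : E = (lam ^ 3)⁻¹ := by
    rw [hE, hbc, hσe, Real.exp_neg]
    congr 1
    rw [show (3 : ℝ) * Real.log lam = ((3 : ℕ) : ℝ) * Real.log lam by norm_num, Real.exp_nat_mul,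
      Real.exp_log (by linarith)]
  have hE0 : 0 < E := Real.exp_pos _
  have hlamE : lam * E ≤ 1 / lam ^ 2 := by
    rw [hEval]
    apply le_of_eq
    field_simp
  have hE8 : E ≤ 1 / 8 := by
    rw [hEval, ← one_div]
    apply one_div_le_one_div_of_le (by norm_num)
    calc (8 : ℝ) = 2 ^ 3 := by norm_num
      _ ≤ lam ^ 3 := pow_le_pow_left₀ (by norm_num) hlam2 3
  -- the slopes
  set q1 : ℝ → ℝ := fun x => - rd S.T x with hq1
  set q2 : ℝ → ℝ := rd S.B with hq2
  have m1 : MonotoneOn q1 (Ioo a b) := rdT_mono S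
  have m2 : MonotoneOn q2 (Ioo a b) := rdB_mono S
  have hsub : Ico c b ⊆ Ioo a b := fun x hx => ⟨hac.trans_le hx.1, hx.2⟩
  have m1' : MonotoneOn q1 (Ico c b) := m1.mono hsub
  have m2' : MonotoneOn q2 (Ico c b) := m2.mono hsub
  have i1 : IntervalIntegrable q1 volume a b := rT.neg
  have i2 : IntervalIntegrable q2 volume a b := rB
  have j1 : IntervalIntegrable (fun u => nq (q1 u)) volume a b := by
    refine iT.congr ?_
    intro x _
    exact al_T S x
  have j2 : IntervalIntegrable (fun u => nq (q2 u)) volume a b := iB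
  have hs1 : uIcc c b ⊆ uIcc a b := by
    rw [uIcc_of_le hcb.le, uIcc_of_le hab.le]
    exact Icc_subset_Icc hac.le le_rfl
  have hs2 : uIcc a c ⊆ uIcc a b := by
    rw [uIcc_of_le hac.le, uIcc_of_le hab.le]
    exact Icc_subset_Icc le_rfl hcb.le
  -- slopes are bounded below at `c`
  set K := 2 * p / ρ with hK
  have hK0 : 0 < K := by positivity
  have hKc : p / (c - a) ≤ K := by
    rw [hK, div_le_div_iff₀ (by linarith) hρ]
    nlinarith
  have hK1 : -K ≤ q1 c := by
    have := slope_bound a b c p q1 (fun x => - S.T x) hac hcb m1 i1 (by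
      simp only [hq1]
      rw [intervalIntegral.integral_neg, (dT a ham c hcm hac.le).1]
      ring) (by
      have h1 := (dT a ham c hcm hac.le).2
      rw [show -S.T c - -S.T a = -(S.T c - S.T a) by ring, abs_neg]
      linarith)
    linarith
  have hK2 : -K ≤ q2 c := by
    have := slope_bound a b c p q2 S.B hac hcb m2 i2 (dB a ham c hcm hac.le).1 (by
      have h1 := (dB a ham c hcm hac.le).2
      linarith)
    linarith
  -- decomposition
  rw [F_eq]
  have hd1 : (∫ x in a..b, Wt l b x * (al S.T x : ℂ)) + (∫ x in a..b, Wt l b x * (al S.B x : ℂ)) =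
      (∫ x in a..c, Wt l b x * ((nq (q1 x) + nq (q2 x) : ℝ) : ℂ)) +
      ∫ x in c..b, Wt l b x * ((nq (q1 x) + nq (q2 x) : ℝ) : ℂ) := by
    have h1 : ∫ x in a..b, Wt l b x * (al S.T x : ℂ) = ∫ x in a..b, Wt l b x * (nq (q1 x) : ℂ) := by
      congr 1
      ext x
      rw [al_T]
    have h2 : ∫ x in a..b, Wt l b x * (al S.B x : ℂ) = ∫ x in a..b, Wt l b x * (nq (q2 x) : ℂ) := rfl
    rw [h1, h2, ← W_add j1 j2]
    rw [intervalIntegral.integral_add_adjacent_intervals]
    · exact (ii_W (j1.add j2)).mono_set hs2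
    · exact (ii_W (j1.add j2)).mono_set hs1
  rw [hd1]
  set Z := ∫ x in c..b, Wt l b x * ((nq (q1 x) + nq (q2 x) : ℝ) : ℂ) with hZ
  -- the tail
  have htail : ‖(∫ x in a..c, Wt l b x * ((nq (q1 x) + nq (q2 x) : ℝ) : ℂ)) +
      l * ((S.T a - S.B a : ℝ) : ℂ) * Complex.exp (-(l * ((b - a : ℝ) : ℂ)))‖ ≤ 1 / 4 := by
    have h1 : ‖∫ x in a..c, Wt l b x * ((nq (q1 x) + nq (q2 x) : ℝ) : ℂ)‖ ≤
        ∫ x in a..c, lam * E * (nq (q1 x) + nq (q2 x)) := by
      refine intervalIntegral.norm_integral_le_of_norm_le hac.le ?_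
        (((j1.add j2).mono_set hs2).const_mul _)
      refine Eventually.of_forall fun x hx => ?_
      have hn : 0 ≤ nq (q1 x) + nq (q2 x) := add_nonneg (Real.sqrt_nonneg _) (Real.sqrt_nonneg _)
      rw [norm_mul]
      unfold Wt
      rw [norm_mul, norm_exp_eq, Complex.norm_real, Real.norm_of_nonneg hn]
      have h2 : Real.exp (-(l.re * (b - x))) ≤ E := by
        rw [hE]
        apply Real.exp_le_exp.2
        have := hx.2
        nlinarith
      gcongr
    have h3 : ∫ x in a..c, lam * E * (nq (q1 x) + nq (q2 x)) ≤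
        lam * E * ((∫ x in a..b, al S.T x) + (∫ x in a..b, al S.B x)) := by
      rw [intervalIntegral.integral_const_mul]
      refine mul_le_mul_of_nonneg_left ?_ (by positivity)
      have h4 : (∫ x in a..b, al S.T x) + (∫ x in a..b, al S.B x) =
          ∫ x in a..b, (nq (q1 x) + nq (q2 x)) := by
        rw [intervalIntegral.integral_add j1 j2]
        congr 1
        congr 1
        ext x
        rw [al_T]
      rw [h4]
      refine intervalIntegral.integral_mono_interval le_rfl hac.le hcb.le ?_ (j1.add j2)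
      refine Eventually.of_forall fun x => ?_
      exact add_nonneg (Real.sqrt_nonneg _) (Real.sqrt_nonneg _)
    have h5 : ‖l * ((S.T a - S.B a : ℝ) : ℂ) * Complex.exp (-(l * ((b - a : ℝ) : ℂ)))‖ ≤
        lam * E * (S.T a - S.B a) := by
      rw [norm_mul, norm_mul, norm_exp_eq, Complex.norm_real, Real.norm_of_nonneg hβa]
      have h2 : Real.exp (-(l.re * (b - a))) ≤ E := by
        rw [hE]
        apply Real.exp_le_exp.2
        nlinarith
      calc lam * (S.T a - S.B a) * Real.exp (-(l.re * (b - a))) ≤ lam * (S.T a - S.B a) * E := by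
            gcongr
        _ = _ := by ring
    refine (norm_add_le _ _).trans ?_
    have h6 : lam * E * p ≤ 1 / 4 := by
      have h7 : 4 * p ≤ lam := by linarith
      calc lam * E * p ≤ 1 / lam ^ 2 * p := by gcongr
        _ ≤ 1 / 4 := by
          rw [div_mul_eq_mul_div, div_le_div_iff₀ (by positivity) (by norm_num)]
          nlinarith
    have h8 : lam * E * ((∫ x in a..b, al S.T x) + (∫ x in a..b, al S.B x)) +
        lam * E * (S.T a - S.B a) ≤ lam * E * p := by
      rw [← mul_add]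
      refine mul_le_mul_of_nonneg_left ?_ (by positivity)
      linarith
    linarith
  have htail' := (neg_le_abs _).trans ((Complex.abs_re_le_norm _).trans htail)
  have hlast : (l * ((S.T b - S.B b : ℝ) : ℂ)).re = σ * (S.T b - S.B b) := by
    rw [Complex.re_mul_ofReal]
  have key : 5 / 4 ≤ Z.re + σ * (S.T b - S.B b) := by
    rcases le_or_gt 0 (q1 c + q2 c) with h12 | h12
    · -- Case 1
      have h0 : 0 ≤ σ * (S.T b - S.B b) := mul_nonneg hσ0.le hβb
      have hKE : 2 * K * E ≤ 1 / 4 := by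
        have h1 : 16 * p / ρ ≤ lam := by
          have : 16 * p / ρ = (32 * p / ρ) / 2 := by ring
          rw [this]
          linarith
        rw [hEval, hK]
        have h2 : 2 * (2 * p / ρ) = (16 * p / ρ) / 4 := by ring
        rw [h2]
        calc (16 * p / ρ) / 4 * (lam ^ 3)⁻¹ ≤ lam / 4 * (lam ^ 3)⁻¹ := by gcongr
          _ = 1 / (4 * lam ^ 2) := by field_simp
          _ ≤ 1 / 4 := by
            apply one_div_le_one_div_of_le (by norm_num)
            nlinarith
      have hmain : 2 * (1 - E) - 2 * K * E ≤ Z.re := by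
        rcases le_total (q2 c) (q1 c) with h | h
        · exact case1 l c b hcb hσ0.le q1 q2 m1' m2' (i2.mono_set hs1) (j1.mono_set hs1)
            (j2.mono_set hs1) (abs_le.2 ⟨by linarith, h⟩) K hK2 hK0.le
        · have := case1 l c b hcb hσ0.le q2 q1 m2' m1' (i1.mono_set hs1) (j2.mono_set hs1)
            (j1.mono_set hs1) (abs_le.2 ⟨by linarith, h⟩) K hK1 hK0.le
          rw [hZ]
          simp only [add_comm (nq (q1 _))]
          exact this
      linarith
    · -- Case 2
      have hmain := case2 l c b hcb hσ0.le q1 q2 m1' m2' (i1.mono_set hs1) (i2.mono_set hs1)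
        (j1.mono_set hs1) (j2.mono_set hs1) K hK1 hK2 hK0.le
      -- the chord at `c`
      have hint : ∫ u in c..b, (q1 u + q2 u) = (S.T c - S.B c) - (S.T b - S.B b) := by
        rw [intervalIntegral.integral_add (i1.mono_set hs1) (i2.mono_set hs1)]
        simp only [hq1]
        rw [intervalIntegral.integral_neg, (dT c hcm b hbm hcb.le).1, (dB c hcm b hbm hcb.le).1]
        ring
      have hchord : ρ / 2 ≤ S.T c - S.B c := by
        obtain ⟨x, hxm, hxρ⟩ := hx
        rcases le_or_gt x c with hxc | hxc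
        · -- increasing chord
          have h1 : S.T c - S.B c - (S.T x - S.B x) = -∫ u in x..c, (q1 u + q2 u) := by
            have hs3 : uIcc x c ⊆ uIcc a b := by
              rw [uIcc_of_le hxc, uIcc_of_le hab.le]
              exact Icc_subset_Icc hxm.1 hcb.le
            rw [intervalIntegral.integral_add (i1.mono_set hs3) (i2.mono_set hs3)]
            simp only [hq1]
            rw [intervalIntegral.integral_neg, (dT x hxm c hcm hxc).1, (dB x hxm c hcm hxc).1]
            ring
          have h2 : ∫ u in x..c, (q1 u + q2 u) ≤ 0 := by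
            have hs3 : uIcc x c ⊆ uIcc a b := by
              rw [uIcc_of_le hxc, uIcc_of_le hab.le]
              exact Icc_subset_Icc hxm.1 hcb.le
            have h3 : ∫ u in x..c, (q1 u + q2 u) ≤ ∫ u in x..c, (0 : ℝ) := by
              refine intervalIntegral.integral_mono_on_of_le_Ioo hxc
                ((i1.mono_set hs3).add (i2.mono_set hs3)) intervalIntegrable_const fun u hu => ?_
              have hum : u ∈ Ioo a b := ⟨hxm.1.trans_lt hu.1, hu.2.trans hcb⟩
              have h4 := m1 hum hcm' hu.2.le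
              have h5 := m2 hum hcm' hu.2.le
              linarith
            simpa using h3
          linarith
        · -- concavity
          have hax : 0 < x - a := by linarith
          have hθ1 : 0 ≤ (x - c) / (x - a) := div_nonneg (by linarith) hax.le
          have hθ2 : 0 ≤ (c - a) / (x - a) := div_nonneg (by linarith) hax.le
          have hθ : (x - c) / (x - a) + (c - a) / (x - a) = 1 := by field_simp; ring
          have h1 := S.concT.2 ham hxm hθ1 hθ2 hθ
          have h2 := S.convB.2 ham hxm hθ1 hθ2 hθ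
          have h3 : ((x - c) / (x - a)) • a + ((c - a) / (x - a)) • x = c := by
            simp only [smul_eq_mul]
            field_simp
            ring
          rw [h3] at h1 h2
          simp only [smul_eq_mul] at h1 h2
          have h4 : (1 : ℝ) / 2 ≤ (c - a) / (x - a) := by
            rw [div_le_div_iff₀ (by norm_num) hax]
            linarith [hxm.2]
          nlinarith [mul_nonneg hθ1 hβa]
      rw [hint, hbc] at hmain
      set βb := S.T b - S.B b with hβb'
      set βc := S.T c - S.B c with hβc'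
      -- m = (1 - E)/e between C/6 and σ
      set m := (1 - Real.exp (-(l.re * e))) / e with hm
      have hmE : m = (1 - E) / e := by rw [hm, hE, hbc]
      have hm1 : C / 6 ≤ m := by
        rw [hmE, div_le_div_iff₀ (by norm_num) he0]
        nlinarith
      have hm2 : m ≤ σ := by
        rw [hm, div_le_iff₀ he0]
        have := Real.add_one_le_exp (-(l.re * e))
        linarith
      have h1 : m * (βc - βb) + σ * βb ≥ m * βc := by nlinarith
      have h2 : C / 6 * (ρ / 2) ≤ m * βc := by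
        have : 0 ≤ C / 6 := by positivity
        have hm0 : 0 ≤ m := this.trans hm1
        exact mul_le_mul hm1 hchord (by positivity) hm0
      have h3 : 2 + 8 * p / ρ + p ≤ C / 6 * (ρ / 2) := by
        have h4 : 12 / ρ * (2 + 8 * p / ρ + p) ≤ C := by
          have : 0 < 8 * p := by positivity
          linarith
        have h5 : 12 / ρ * (2 + 8 * p / ρ + p) * (ρ / 12) ≤ C * (ρ / 12) := by gcongr
        have h6 : 12 / ρ * (2 + 8 * p / ρ + p) * (ρ / 12) = 2 + 8 * p / ρ + p := by
          field_simp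
        rw [h6] at h5
        linarith
      have h7 : 4 * K = 8 * p / ρ := by rw [hK]; ring
      linarith
  simp only [Complex.add_re] at htail' ⊢
  rw [hlast]
  linarith

end Pool.Agent.H36.BP
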