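import Pool.Agent.H66.BP.Targets

/-! # MP_d8fe2e_gt, module S2: a direction without `P` does not see `P` -/

open MeasureTheory Set Filter Topology Metric
open scoped Real ENNReal NNReal ComplexConjugate ContDiff

namespace Pool.Agent.H36.BP

open Pool.Agent.H66.BP

lemma norm_cx (x : ℝ × ℝ) : ‖cx x‖ = ‖x‖ := by
  simp [cx, Prod.norm_def]

lemma log_small (c a η : ℝ) (hc : 0 ≤ c) (ha : 0 ≤ a) (hη : 0 < η) :
    ∀ᶠ t : ℝ in atTop, c * Real.log (2 + t * a) ≤ η * t := by
  have h1 := (Real.isLittleO_log_id_atTop.def (c := η / (2 * (c + 1))) (by positivity))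
  have h2 : ∀ᶠ t : ℝ in atTop, c * Real.log (2 + a) ≤ η / 2 * t :=
    (tendsto_id.const_mul_atTop (by positivity : (0 : ℝ) < η / 2)).eventually_ge_atTop _
  filter_upwards [h1, h2, eventually_ge_atTop (1 : ℝ)] with t h1 h2 h3
  have h4 : Real.log (2 + t * a) ≤ Real.log (2 + a) + Real.log t := by
    rw [← Real.log_mul (by positivity) (by positivity)]
    apply Real.log_le_log (by positivity)
    nlinarith
  have h5 : Real.log t ≤ η / (2 * (c + 1)) * t := by
    have h6 := (le_abs_self (Real.log t)).trans h1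
    rwa [id, Real.norm_of_nonneg (by linarith)] at h6
  have h7 : c * Real.log t ≤ η / 2 * t := by
    have h8 : c * Real.log t ≤ c * (η / (2 * (c + 1)) * t) := mul_le_mul_of_nonneg_left h5 hc
    have h9 : c * (η / (2 * (c + 1)) * t) = (c / (c + 1)) * (η / 2 * t) := by
      field_simp
    have h10 : c / (c + 1) ≤ 1 := by
      rw [div_le_one (by linarith)]
      linarith
    have h11 : 0 ≤ η / 2 * t := by positivity
    nlinarith
  have h12 : c * Real.log (2 + t * a) ≤ c * (Real.log (2 + a) + Real.log t) :=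
    mul_le_mul_of_nonneg_left h4 hc
  linarith

theorem s2 (hEQ : T_EQ) (hQL : T_QL) : T_S2 := by
  intro D u x hu ε hε
  have hcx0 : cx (0 : ℝ × ℝ) = 0 := by simp [cx]
  rcases eq_or_ne u 0 with rfl | hu0
  · filter_upwards [eventually_ge_atTop (0 : ℝ)] with t ht
    rw [add_zero]
    have : 0 ≤ ε * t := by positivity
    linarith
  rcases eq_or_ne x 0 with rfl | hx0
  · filter_upwards [hu ε hε] with t ht
    rw [zero_add, hcx0, D.Pzero]
    linarith
  have hU : 0 < ‖u‖ := norm_pos_iff.mpr hu0
  have hX : 0 < ‖x‖ := norm_pos_iff.mpr hx0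
  set U := ‖u‖ with hUdef
  set X := ‖x‖ with hXdef
  have hM := D.hM
  set M := D.M with hMdef
  set C := D.C with hCdef
  have hC : 0 ≤ C := D.hC
  -- the parameters
  set κ := min 1 (ε / (8 * (M * X + 1))) with hκ
  have hMX : 0 ≤ M * X := by positivity
  have hκ0 : 0 < κ := lt_min one_pos (by positivity)
  have hκ1 : κ ≤ 1 := min_le_left _ _
  have hκ2 : κ * (M * X) ≤ ε / 8 := by
    have h1 : κ ≤ ε / (8 * (M * X + 1)) := min_le_right _ _
    calc κ * (M * X) ≤ ε / (8 * (M * X + 1)) * (M * X) := mul_le_mul_of_nonneg_right h1 hMX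
      _ = (M * X / (M * X + 1)) * (ε / 8) := by field_simp
      _ ≤ 1 * (ε / 8) := by
        apply mul_le_mul_of_nonneg_right _ (by positivity)
        rw [div_le_one (by linarith)]
        linarith
      _ = ε / 8 := one_mul _
  set r := ε / (16 * (M + 1)) with hr
  have hr0 : 0 < r := by positivity
  have hrM : 2 * r * M ≤ ε / 8 := by
    have : 2 * r * M = (M / (M + 1)) * (ε / 8) := by
      rw [hr]
      field_simp
      ring
    rw [this]
    have h1 : M / (M + 1) ≤ 1 := by
      rw [div_le_one (by linarith)]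
      linarith
    nlinarith [div_nonneg hM (by linarith : (0 : ℝ) ≤ M + 1)]
  set δ := min (1 / 2) (κ * r / (4 * U)) with hδ
  have hδ0 : 0 < δ := lt_min (by norm_num) (by positivity)
  have hδ1 : δ < 1 := lt_of_le_of_lt (min_le_left _ _) (by norm_num)
  have hδU : δ * U ≤ κ * r / 4 := by
    have h1 : δ ≤ κ * r / (4 * U) := min_le_right _ _
    calc δ * U ≤ κ * r / (4 * U) * U := mul_le_mul_of_nonneg_right h1 hU.le
      _ = κ * r / 4 := by field_simp
  have hδU0 : 0 < δ * U := by positivity
  have hfac : (r + δ * U) / (r - δ * U) ≤ 1 + κ := by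
    have h1 : δ * U ≤ r / 4 := by nlinarith
    rw [div_le_iff₀ (by linarith)]
    nlinarith
  set B₀ := 6 * X * M + 1 with hB₀
  have hB₀0 : 0 < B₀ := by positivity
  set R := max 2 (Real.exp (B₀ * Real.log (1 / δ) * 2 / ε)) with hR
  have hR2 : 2 ≤ R := le_max_left _ _
  have hR0 : 0 < R := by linarith
  have hlogδ : 0 < Real.log (1 / δ) := Real.log_pos (by
    rw [lt_div_iff₀ hδ0]
    linarith)
  have hRlog : B₀ * Real.log (1 / δ) * 2 / ε ≤ Real.log (R / δ) := by
    have h1 : Real.log (R / δ) = Real.log R + Real.log (1 / δ) := by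
      rw [← Real.log_mul hR0.ne' (by positivity)]
      congr 1
      ring
    rw [h1]
    have h2 : B₀ * Real.log (1 / δ) * 2 / ε ≤ Real.log R := by
      rw [Real.le_log_iff_exp_le hR0]
      exact le_max_right _ _
    linarith
  have hlogRδ : 0 < Real.log (R / δ) := Real.log_pos (by
    rw [lt_div_iff₀ hδ0]
    linarith)
  have hquot : B₀ * (Real.log (1 / δ) / Real.log (R / δ)) ≤ ε / 2 := by
    rw [← mul_div_assoc, div_le_iff₀ hlogRδ]
    have h1 := mul_le_mul_of_nonneg_left hRlog (by positivity : (0 : ℝ) ≤ ε / 2)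
    have h2 : ε / 2 * (B₀ * Real.log (1 / δ) * 2 / ε) = B₀ * Real.log (1 / δ) := by
      field_simp
    rw [h2] at h1
    exact h1
  -- the eventual inequalities
  have hRt : Tendsto (fun t : ℝ => R * t) atTop atTop := tendsto_id.const_mul_atTop hR0
  have E1 := hRt.eventually (hu (1 / (6 * R)) (by positivity))
  have E2 := log_small (3 * C) (R * U) (1 / 2) (by positivity) (by positivity) (by norm_num)
  have E3 := log_small (2 * C) X (ε / 8) (by positivity) hX.le (by positivity)
  filter_upwards [E1, E2, E3, eventually_gt_atTop (0 : ℝ)] with t E1 E2 E3 ht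
  have hg0 : D.JP (cx x) t ≤ M * X * t := by
    have h1 := D.upper (cx x) t ht
    have h2 := D.Q0 (cx x) t
    have h3 := D.mbd (cx x)
    rw [norm_cx] at h3
    have h4 : t * D.m (cx x) ≤ t * (M * X) := mul_le_mul_of_nonneg_left h3 ht.le
    linarith
  have hg00 := D.P0 (cx x) t
  have hsub := D.Psub (cx x) (cx u) t ht
  -- near 0
  have near : ∀ s : ℂ, ‖s‖ = δ → D.JP (cx x + s • cx u) t ≤ D.JP (cx x) t + ε * t / 2 := by
    intro s hs
    have hz : cx x + s • cx u - (1 : ℂ) • cx x = s • cx u := by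
      rw [one_smul]
      abel
    have hzn : ‖cx x + s • cx u - (1 : ℂ) • cx x‖ = δ * U := by
      rw [hz, norm_smul, hs, norm_cx]
    have h1 := (hEQ D x 1 (cx x + s • cx u) r t ht (by rw [hzn]; nlinarith)).1
    rw [hzn, one_smul, norm_cx] at h1
    refine h1.trans ?_
    have hlog : 0 ≤ Real.log (2 + t * X) := Real.log_nonneg (by nlinarith [mul_pos ht hX])
    have h2 : 0 ≤ r * M * t + C * Real.log (2 + t * X) + D.JP (cx x) t := by positivity
    refine (mul_le_mul_of_nonneg_right hfac h2).trans ?_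
    have h3 : (1 + κ) * (r * M * t + C * Real.log (2 + t * X) + D.JP (cx x) t) =
      (1 + κ) * (r * M * t + C * Real.log (2 + t * X)) + D.JP (cx x) t + κ * D.JP (cx x) t := by
      ring
    rw [h3]
    have h4 : 0 ≤ r * M * t + C * Real.log (2 + t * X) := by positivity
    have h5 : (1 + κ) * (r * M * t + C * Real.log (2 + t * X)) ≤
        2 * (r * M * t + C * Real.log (2 + t * X)) :=
      mul_le_mul_of_nonneg_right (by linarith) h4
    have h6 : κ * D.JP (cx x) t ≤ ε / 8 * t := by
      calc κ * D.JP (cx x) t ≤ κ * (M * X * t) := mul_le_mul_of_nonneg_left hg0 hκ0.le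
        _ = κ * (M * X) * t := by ring
        _ ≤ ε / 8 * t := mul_le_mul_of_nonneg_right hκ2 ht.le
    have h7 : 2 * (r * M * t) ≤ ε / 8 * t := by
      calc 2 * (r * M * t) = 2 * r * M * t := by ring
        _ ≤ ε / 8 * t := mul_le_mul_of_nonneg_right hrM ht.le
    have h8 : 2 * (C * Real.log (2 + t * X)) ≤ ε / 8 * t := by
      calc 2 * (C * Real.log (2 + t * X)) = 2 * C * Real.log (2 + t * X) := by ring
        _ ≤ _ := E3
    have h9 : 0 ≤ ε * t := by positivity
    linarith
  -- far
  have far : ∀ s : ℂ, ‖s‖ = R → D.JP (cx x + s • cx u) t ≤ B₀ * t := by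
    intro s hs
    have hs0 : s ≠ 0 := by
      rw [← norm_pos_iff, hs]
      exact hR0
    have hz : cx x + s • cx u - s • cx u = cx x := by abel
    have hzn : ‖cx x + s • cx u - s • cx u‖ = X := by rw [hz, norm_cx]
    have h1 := (hEQ D u s (cx x + s • cx u) (2 * X) t ht (by rw [hzn]; linarith)).1
    rw [hzn, D.Phom s _ t hs0, norm_smul, hs, norm_cx] at h1
    have hf : (2 * X + X) / (2 * X - X) = 3 := by
      field_simp
      ring
    rw [hf] at h1
    have h2 : 3 * (1 / (6 * R) * (R * t)) = t / 2 := by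
      field_simp
      ring
    have h3 : 3 * (C * Real.log (2 + t * (R * U))) ≤ 1 / 2 * t := by
      calc 3 * (C * Real.log (2 + t * (R * U))) = 3 * C * Real.log (2 + t * (R * U)) := by ring
        _ ≤ _ := E2
    rw [hB₀]
    have h4 : 3 * D.JP (cx u) (R * t) ≤ t / 2 := by rw [← h2]; linarith
    linarith
  have hfin := hQL (fun s => D.JP (cx x + s • cx u) t) hsub δ R (D.JP (cx x) t + ε * t / 2)
    (B₀ * t) hδ0 hδ1 (by linarith) (by positivity) near (by
      intro s hs
      have h1 := far s hs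
      have h2 : 0 ≤ ε * t := by positivity
      linarith)
  have hxu : cx (x + u) = cx x + (1 : ℂ) • cx u := by
    rw [one_smul]
    simp [cx]
  rw [hxu]
  have h1 : B₀ * t * (Real.log (1 / δ) / Real.log (R / δ)) ≤ ε / 2 * t := by
    calc B₀ * t * (Real.log (1 / δ) / Real.log (R / δ))
        = B₀ * (Real.log (1 / δ) / Real.log (R / δ)) * t := by ring
      _ ≤ ε / 2 * t := mul_le_mul_of_nonneg_right hquot ht.le
  have h2 : D.JP (cx x + (1 : ℂ) • cx u) t ≤
      D.JP (cx x) t + ε * t / 2 + B₀ * t * (Real.log (1 / δ) / Real.log (R / δ)) := hfin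
  linarith

end Pool.Agent.H36.BP
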